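import Pool.Agent.Helper43.MT.LieStd
import Pool.Agent.Helper40.MT.Stmts

/-!
# LIE: Lie algebras of similitudes with a regular nilpotent element
-/

set_option autoImplicit false

namespace MT

variable {K : Type} [Field K]

/-- the basis `N^j v` -/
theorem chain_basis {m : ℕ} (N : Mt K m) (v : Fin (m + 1) → K) (hN : N ^ (m + 1) = 0)
    (hv : (N ^ m).mulVec v ≠ 0) :
    ∃ P : Matrix.GeneralLinearGroup (Fin (m + 1)) K,
      (∀ i j, (P : Mt K m) i j = (N ^ (j : ℕ)).mulVec v i) ∧ N * (P : Mt K m) = P * eM K m := by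
  classical
  let P0 : Mt K m := Matrix.of fun i j => (N ^ (j : ℕ)).mulVec v i
  have hNz : ∀ k, m + 1 ≤ k → N ^ k = 0 := by
    intro k hk
    rw [← Nat.add_sub_cancel' hk, pow_add, hN, zero_mul]
  have hmv : ∀ c : Fin (m + 1) → K, P0.mulVec c = ∑ j, c j • (N ^ (j : ℕ)).mulVec v := by
    intro c
    ext i
    rw [Finset.sum_apply]
    simp only [Matrix.mulVec, dotProduct, P0, Matrix.of_apply, Pi.smul_apply, smul_eq_mul]
    exact Finset.sum_congr rfl fun j _ => mul_comm _ _
  have hinj : ∀ c : Fin (m + 1) → K, P0.mulVec c = 0 → c = 0 := by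
    intro c hc
    have h1 : ∀ j : ℕ, ∀ hj : j < m + 1, c ⟨j, hj⟩ = 0 := by
      intro j
      induction j using Nat.strong_induction_on with
      | _ j ih =>
        intro hj
        rw [hmv] at hc
        have h2 := congrArg (fun u => (N ^ (m - j)).mulVec u) hc
        simp only [Matrix.mulVec_zero] at h2
        rw [Matrix.mulVec_sum] at h2
        rw [Finset.sum_eq_single (⟨j, hj⟩ : Fin (m + 1))] at h2
        · rw [Matrix.mulVec_smul, Matrix.mulVec_mulVec, ← pow_add,
            show m - j + j = m by omega] at h2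
          rcases smul_eq_zero.mp h2 with h3 | h3
          · exact h3
          · exact absurd h3 hv
        · intro i _ hi
          rw [Matrix.mulVec_smul, Matrix.mulVec_mulVec, ← pow_add]
          rcases Nat.lt_or_ge (i : ℕ) j with h3 | h3
          · rw [show c i = c ⟨(i : ℕ), i.2⟩ from rfl, ih i h3 i.2, zero_smul]
          · have h4 : (i : ℕ) ≠ j := fun h => hi (Fin.ext h)
            rw [hNz _ (by omega), Matrix.zero_mulVec, smul_zero]
        · intro h
          exact absurd (Finset.mem_univ _) h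
    ext i
    exact h1 i i.2
  have hdet : P0.det ≠ 0 := by
    intro h0
    obtain ⟨c, hc, hc'⟩ := Matrix.exists_mulVec_eq_zero_iff.mpr h0
    exact hc (hinj c hc')
  refine ⟨Matrix.GeneralLinearGroup.mkOfDetNeZero P0 hdet, fun i j => rfl, ?_⟩
  change N * P0 = P0 * eM K m
  ext i j
  rw [eM, mul_up]
  have h1 : (N * P0) i j = (N ^ ((j : ℕ) + 1)).mulVec v i := by
    have h2 : (N * P0) i j = N.mulVec ((N ^ (j : ℕ)).mulVec v) i := rfl
    rw [h2, Matrix.mulVec_mulVec, ← pow_succ']
  rw [h1]
  split_ifs with h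
  · rw [mul_one]
    rfl
  · rw [hNz _ (by omega), Matrix.zero_mulVec]
    rfl

/-- matrices `D` with `[D, e] = e` -/
theorem eigen_std [CharZero K] {m : ℕ} (D : Mt K m) (h : D * eM K m - eM K m * D = eM K m) :
    ∃ (α : K) (x : Fin (m + 1) → K), D.mulVec x = α • x ∧ x 0 ≠ 0 := by
  classical
  have hent : ∀ i j : Fin (m + 1), (D * eM K m) i j - (eM K m * D) i j = eM K m i j := by
    intro i j
    rw [← Matrix.sub_apply, h]
  -- first row
  have hrow : ∀ j : ℕ, ∀ hj : j + 1 < m + 1, D 0 ⟨j + 1, hj⟩ = 0 := by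
    intro j hj
    have h1 := hent 0 ⟨j, by omega⟩
    rw [eM, mul_up, up_mul, dif_pos hj, dif_neg (by simp)] at h1
    simpa [up] using h1
  -- recursion
  have hrec : ∀ i j : ℕ, ∀ hi : i + 1 < m + 1, ∀ hj : j + 1 < m + 1,
      D ⟨i + 1, hi⟩ ⟨j + 1, hj⟩ = D ⟨i, by omega⟩ ⟨j, by omega⟩ + if i = j then 1 else 0 := by
    intro i j hi hj
    have h1 := hent ⟨i + 1, hi⟩ ⟨j, by omega⟩
    rw [eM, mul_up, up_mul, dif_pos hj, dif_pos (by simp)] at h1
    simp only [up, Matrix.of_apply, Nat.add_sub_cancel, mul_one, one_mul] at h1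
    have h2 : (i + 1 = j + 1) ↔ i = j := by omega
    simp only [h2] at h1
    rw [← h1]
    ring
  have hupper : ∀ i j : ℕ, ∀ hi : i < m + 1, ∀ hj : j < m + 1, i < j → D ⟨i, hi⟩ ⟨j, hj⟩ = 0 := by
    intro i
    induction i with
    | zero =>
      intro j hi hj hij
      obtain ⟨j, rfl⟩ : ∃ j', j = j' + 1 := ⟨j - 1, by omega⟩
      exact hrow j hj
    | succ i ih =>
      intro j hi hj hij
      obtain ⟨j, rfl⟩ : ∃ j', j = j' + 1 := ⟨j - 1, by omega⟩
      rw [hrec i j hi hj, ih j (by omega) (by omega) (by omega), if_neg (by omega), add_zero]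
  have hdiag : ∀ i : ℕ, ∀ hi : i < m + 1, D ⟨i, hi⟩ ⟨i, hi⟩ = D 0 0 + i := by
    intro i
    induction i with
    | zero => intro hi; simp
    | succ i ih =>
      intro hi
      rw [hrec i i hi hi, ih (by omega), if_pos rfl]
      push_cast
      ring
  let M : Mt K m := D - (D 0 0) • 1
  have hdet : M.det = 0 := by
    apply Matrix.det_eq_zero_of_row_eq_zero 0
    intro j
    by_cases hj : j = 0
    · subst hj
      simp [M]
    · have h1 : (0 : ℕ) < j := by
        rcases Nat.eq_zero_or_pos (j : ℕ) with h | h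
        · exact absurd (Fin.ext h) hj
        · exact h
      have h2 := hupper 0 j (by omega) j.2 h1
      simp only [M, Matrix.sub_apply, Matrix.smul_apply, smul_eq_mul]
      rw [Matrix.one_apply_ne (Ne.symm hj), mul_zero, sub_zero]
      exact h2
  obtain ⟨x, hx, hx'⟩ := Matrix.exists_mulVec_eq_zero_iff.mpr hdet
  refine ⟨D 0 0, x, ?_, ?_⟩
  · rw [Matrix.sub_mulVec, Matrix.smul_mulVec, Matrix.one_mulVec, sub_eq_zero] at hx'
    exact hx'
  · intro h0
    apply hx
    have h1 : ∀ i : ℕ, ∀ hi : i < m + 1, x ⟨i, hi⟩ = 0 := by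
      intro i
      induction i using Nat.strong_induction_on with
      | _ i ih =>
        intro hi
        rcases Nat.eq_zero_or_pos i with h2 | h2
        · subst h2
          exact h0
        · have h3 := congrFun hx' ⟨i, hi⟩
          rw [Matrix.mulVec, dotProduct, Finset.sum_eq_single (⟨i, hi⟩ : Fin (m + 1))] at h3
          · simp only [M, Matrix.sub_apply, Matrix.smul_apply, Matrix.one_apply_eq, hdiag i hi,
              smul_eq_mul, mul_one, add_sub_cancel_left, Pi.zero_apply] at h3
            rcases mul_eq_zero.mp h3 with h4 | h4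
            · exact absurd h4 (by exact_mod_cast h2.ne')
            · exact h4
          · intro j _ hj
            have hj' : (j : ℕ) ≠ i := fun h => hj (Fin.ext h)
            rcases Nat.lt_or_ge (j : ℕ) i with h4 | h4
            · have h5 : x j = 0 := ih j h4 j.2
              rw [h5, mul_zero]
            · have h5 : M ⟨i, hi⟩ j = 0 := by
                simp only [M, Matrix.sub_apply, Matrix.smul_apply, smul_eq_mul]
                rw [Matrix.one_apply_ne (fun h => hj h.symm), mul_zero, sub_zero]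
                exact hupper i j hi j.2 (by omega)
              rw [h5, zero_mul]
          · intro h
            exact absurd (Finset.mem_univ _) h
    ext i
    exact h1 i i.2

/-- the normal form of `N`, `D` -/
theorem normal_form [CharZero K] {m : ℕ} (N D : Mt K m) (hN : N ^ (m + 1) = 0) (hN' : N ^ m ≠ 0)
    (hD : D * N - N * D = N) :
    ∃ (P : Matrix.GeneralLinearGroup (Fin (m + 1)) K) (α : K),
      N * (P : Mt K m) = P * eM K m ∧ D * (P : Mt K m) = P * up m 0 (fun i => α + i) := by
  classical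
  have hv : ∃ v : Fin (m + 1) → K, (N ^ m).mulVec v ≠ 0 := by
    by_contra hcon
    push Not at hcon
    apply hN'
    apply Matrix.toLin'.injective
    apply LinearMap.ext
    intro v
    rw [Matrix.toLin'_apply, hcon v, map_zero]
    rfl
  obtain ⟨v, hv⟩ := hv
  obtain ⟨P, -, hP⟩ := chain_basis N v hN hv
  set D' : Mt K m := ((P⁻¹ : Matrix.GeneralLinearGroup (Fin (m + 1)) K) : Mt K m) * D * P with hD'
  have hPP : (P : Mt K m) * ((P⁻¹ : Matrix.GeneralLinearGroup (Fin (m + 1)) K) : Mt K m) = 1 := by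
    rw [← Units.val_mul, mul_inv_cancel, Units.val_one]
  have hPP' : ((P⁻¹ : Matrix.GeneralLinearGroup (Fin (m + 1)) K) : Mt K m) * (P : Mt K m) = 1 := by
    rw [← Units.val_mul, inv_mul_cancel, Units.val_one]
  have hDP : D * (P : Mt K m) = P * D' := by
    rw [hD', ← mul_assoc, ← mul_assoc, hPP, one_mul]
  have hcomm : D' * eM K m - eM K m * D' = eM K m := by
    have h1 : (P : Mt K m) * (D' * eM K m - eM K m * D') = P * eM K m := by
      rw [mul_sub, ← mul_assoc, ← hDP, ← mul_assoc, ← hP, mul_assoc, ← hP, mul_assoc N, ← hDP,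
        ← mul_assoc, ← mul_assoc, ← sub_mul, hD]
    have h2 := congrArg (fun Z => ((P⁻¹ : Matrix.GeneralLinearGroup (Fin (m + 1)) K) : Mt K m) * Z) h1
    simp only [← mul_assoc, hPP', one_mul] at h2
    exact h2
  obtain ⟨α, x, hx, hx0⟩ := eigen_std D' hcomm
  set v₀ := (P : Mt K m).mulVec x with hv₀
  have hDv : D.mulVec v₀ = α • v₀ := by
    rw [hv₀, Matrix.mulVec_mulVec, hDP, ← Matrix.mulVec_mulVec, hx, Matrix.mulVec_smul]
  have hNP : ∀ k : ℕ, N ^ k * (P : Mt K m) = P * eM K m ^ k := by
    intro k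
    induction k with
    | zero => simp
    | succ k ih => rw [pow_succ', mul_assoc, ih, ← mul_assoc, hP, mul_assoc, ← pow_succ']
  have hek : ∀ k : ℕ, eM K m ^ k = up m k (fun _ => 1) := by
    intro k
    induction k with
    | zero =>
      ext i j
      simp only [pow_zero, up, Matrix.of_apply, Nat.add_zero]
      by_cases hij : i = j
      · subst hij; simp
      · rw [Matrix.one_apply_ne hij, if_neg (fun h => hij (Fin.ext h))]
    | succ k ih =>
      rw [pow_succ', ih]
      ext i j
      rw [eM, up_mul]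
      simp only [up, Matrix.of_apply]
      have hi := i.2
      split_ifs <;> first | omega | simp
  have hNv : (N ^ m).mulVec v₀ ≠ 0 := by
    intro h0
    rw [hv₀, Matrix.mulVec_mulVec, hNP, ← Matrix.mulVec_mulVec, hek] at h0
    have h1 : (up m m (fun _ => (1 : K)) : Mt K m).mulVec x = 0 := by
      have h2 := congrArg
        (fun Z => ((P⁻¹ : Matrix.GeneralLinearGroup (Fin (m + 1)) K) : Mt K m).mulVec Z) h0
      simp only [Matrix.mulVec_mulVec, ← mul_assoc, hPP', one_mul, Matrix.mulVec_zero] at h2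
      exact h2
    have h2 := congrFun h1 (Fin.last m)
    rw [Matrix.mulVec, dotProduct, Finset.sum_eq_single (0 : Fin (m + 1))] at h2
    · simp only [up, Matrix.of_apply, Fin.val_last, Fin.val_zero, zero_add, if_true, one_mul,
        Pi.zero_apply] at h2
      exact hx0 h2
    · intro j _ hj
      simp only [up, Matrix.of_apply, Fin.val_last]
      rw [if_neg, zero_mul]
      intro h
      exact hj (Fin.ext (by simp only [Fin.val_zero]; omega))
    · intro h
      exact absurd (Finset.mem_univ _) h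
  obtain ⟨Q, hQ, hQ'⟩ := chain_basis N v₀ hN hNv
  refine ⟨Q, α, hQ', ?_⟩
  have hDN : ∀ k : ℕ, D.mulVec ((N ^ k).mulVec v₀) = (α + k) • (N ^ k).mulVec v₀ := by
    intro k
    induction k with
    | zero => simp [hDv]
    | succ k ih =>
      have h1 : D * N ^ (k + 1) = N * (D * N ^ k) + N ^ (k + 1) := by
        have h2 : D * N = N * D + N := (sub_eq_iff_eq_add.mp hD).trans (add_comm _ _)
        rw [pow_succ', ← mul_assoc, h2, add_mul, mul_assoc]
      rw [Matrix.mulVec_mulVec, h1, Matrix.add_mulVec, ← Matrix.mulVec_mulVec,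
        ← Matrix.mulVec_mulVec, ih, Matrix.mulVec_smul, Matrix.mulVec_mulVec, ← pow_succ']
      push_cast
      rw [← add_assoc, add_smul _ (1 : K), one_smul]
  ext i j
  rw [mul_up]
  have hj := j.2
  rw [dif_pos (by omega)]
  have h1 : (D * (Q : Mt K m)) i j = D.mulVec ((N ^ (j : ℕ)).mulVec v₀) i := by
    rw [Matrix.mul_apply, Matrix.mulVec, dotProduct]
    exact Finset.sum_congr rfl fun l _ => by rw [hQ]
  rw [h1, hDN, Pi.smul_apply, smul_eq_mul, mul_comm]
  have h2 : (Q : Mt K m) i ⟨(j : ℕ) + 0, by omega⟩ = (N ^ (j : ℕ)).mulVec v₀ i := by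
    rw [hQ]
    rfl
  rw [h2]

/-- the normal form of the pairing -/
theorem psi_form [CharZero K] {m : ℕ} (ψ : Mt K m) (hdet : ψ.det ≠ 0) (α c c' : K)
    (he : (eM K m).transpose * ψ + ψ * eM K m = c • ψ)
    (hx : (up m 0 (fun i => α + i)).transpose * ψ + ψ * up m 0 (fun i => α + i) = c' • ψ) :
    ∃ κ : K, κ ≠ 0 ∧ ψ = psiS m κ := by
  classical
  -- entries
  have hT : ∀ (k : ℕ) (a : ℕ → K), (up m k a).transpose = dn m k a := by
    intro k a
    ext i j
    rfl
  -- c = 0
  have hc : c = 0 := by
    have hu : IsUnit ψ.det := isUnit_iff_ne_zero.mpr hdet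
    have h1 := congrArg (fun Z => (ψ⁻¹ * Z).trace) he
    simp only [mul_add, mul_smul_comm, Matrix.trace_add, Matrix.trace_smul] at h1
    rw [Matrix.nonsing_inv_mul _ hu, ← mul_assoc, ← mul_assoc, Matrix.nonsing_inv_mul _ hu,
      one_mul, Matrix.trace_mul_comm, ← mul_assoc, Matrix.mul_nonsing_inv _ hu, one_mul,
      Matrix.trace_transpose, Matrix.trace_one] at h1
    have h2 : (eM K m).trace = 0 := by
      rw [Matrix.trace]
      apply Finset.sum_eq_zero
      intro i _
      simp only [Matrix.diag_apply, eM, up, Matrix.of_apply]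
      rw [if_neg (by omega)]
    rw [h2, add_zero, smul_eq_mul, Fintype.card_fin] at h1
    have h3 : ((m + 1 : ℕ) : K) ≠ 0 := by exact_mod_cast Nat.succ_ne_zero m
    rcases mul_eq_zero.mp h1.symm with h4 | h4
    · exact h4
    · exact absurd h4 h3
  rw [hc, zero_smul, eM, hT] at he
  rw [hT] at hx
  have hrec : ∀ i j : ℕ, ∀ hi : i + 1 < m + 1, ∀ hj : j + 1 < m + 1,
      ψ ⟨i + 1, hi⟩ ⟨j, by omega⟩ = -ψ ⟨i, by omega⟩ ⟨j + 1, hj⟩ := by
    intro i j hi hj
    have h1 := congrFun (congrFun he ⟨i, by omega⟩) ⟨j, by omega⟩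
    rw [Matrix.add_apply, dn_mul, mul_up, dif_pos hi, dif_pos hj] at h1
    simp only [one_mul, mul_one, Matrix.zero_apply] at h1
    exact eq_neg_of_add_eq_zero_left h1
  have hsum : ∀ i j : Fin (m + 1), ψ i j ≠ 0 → 2 * α + (((i : ℕ) + (j : ℕ) : ℕ) : K) = c' := by
    intro i j hij
    have h1 := congrFun (congrFun hx i) j
    have hi := i.2
    have hj := j.2
    rw [Matrix.add_apply, dn_mul, mul_up, dif_pos (by omega), dif_pos (by omega),
      Matrix.smul_apply, smul_eq_mul] at h1
    simp only [Nat.add_zero, Fin.eta] at h1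
    apply mul_right_cancel₀ hij
    push_cast
    linear_combination h1
  have hrow : ∀ i : Fin (m + 1), ∃ j, ψ i j ≠ 0 := by
    intro i
    by_contra hcon
    push Not at hcon
    exact hdet (Matrix.det_eq_zero_of_row_eq_zero i hcon)
  obtain ⟨j0, hj0⟩ := hrow 0
  obtain ⟨j1, hj1⟩ := hrow (Fin.last m)
  have e0 := hsum 0 j0 hj0
  have e1 := hsum (Fin.last m) j1 hj1
  have e2 : (((0 : Fin (m + 1)) : ℕ) + (j0 : ℕ) : ℕ) = ((Fin.last m : Fin (m + 1)) : ℕ) + (j1 : ℕ) := by
    have h1 : ((((0 : Fin (m + 1)) : ℕ) + (j0 : ℕ) : ℕ) : K) =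
        ((((Fin.last m : Fin (m + 1)) : ℕ) + (j1 : ℕ) : ℕ) : K) := by
      linear_combination e0 - e1
    exact_mod_cast h1
  simp only [Fin.val_zero, Fin.val_last, zero_add] at e2
  have hj0m : (j0 : ℕ) = m := by have := j0.2; omega
  have hzero : ∀ i j : Fin (m + 1), (i : ℕ) + j ≠ m → ψ i j = 0 := by
    intro i j hij
    by_contra hne
    have h1 := hsum i j hne
    have h2 : (((i : ℕ) + (j : ℕ) : ℕ) : K) = ((((0 : Fin (m + 1)) : ℕ) + (j0 : ℕ) : ℕ) : K) := by
      linear_combination h1 - e0
    have h3 : (i : ℕ) + j = ((0 : Fin (m + 1)) : ℕ) + (j0 : ℕ) := by exact_mod_cast h2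
    rw [hj0m] at h3
    simp only [Fin.val_zero, zero_add] at h3
    exact hij h3
  have hanti : ∀ i : ℕ, ∀ hi : i < m + 1, ψ ⟨i, hi⟩ ⟨m - i, by omega⟩ =
      (-1) ^ i * ψ 0 ⟨m, by omega⟩ := by
    intro i
    induction i with
    | zero => intro hi; simp
    | succ i ih =>
      intro hi
      have h1 := hrec i (m - (i + 1)) hi (by omega)
      have h2 := ih (by omega)
      have h3 : ψ ⟨i, by omega⟩ ⟨m - (i + 1) + 1, by omega⟩ = ψ ⟨i, by omega⟩ ⟨m - i, by omega⟩ := by
        congr 1
        apply Fin.ext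
        simp only
        omega
      rw [h1, h3, h2, pow_succ]
      ring
  refine ⟨ψ 0 ⟨m, by omega⟩, ?_, ?_⟩
  · have h1 : j0 = ⟨m, by omega⟩ := Fin.ext hj0m
    rw [← h1]
    exact hj0
  · ext i j
    simp only [psiS, Matrix.of_apply]
    split_ifs with hij
    · have h1 := hanti i i.2
      have h2 : j = ⟨m - i, by omega⟩ := by
        apply Fin.ext
        simp only
        omega
      rw [h2]
      exact h1
    · exact hzero i j hij

theorem sl2S_eq (m : ℕ) : sl2S K m = sl2 K (m + 1) := by
  unfold sl2S sl2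
  congr 1
  have h1 : eM K m = Matrix.of fun i j : Fin (m + 1) =>
      if (i : ℕ) = (j : ℕ) + 1 then (1 : K) else 0 := rfl
  have h2 : up m 0 (fun i => (m : K) - 2 * i) =
      Matrix.diagonal fun i : Fin (m + 1) => ((m + 1 : ℕ) : K) - 1 - 2 * ((i : ℕ) : K) := by
    ext i j
    simp only [up, Matrix.of_apply, Nat.add_zero]
    by_cases hij : i = j
    · subst hij
      rw [if_pos rfl, Matrix.diagonal_apply_eq]
      push_cast
      ring
    · rw [if_neg (fun h => hij (Fin.ext h)), Matrix.diagonal_apply_ne _ hij]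
  have h3 : dn m 1 (wF K m) = Matrix.of fun i j : Fin (m + 1) => if (i : ℕ) + 1 = (j : ℕ) then
      ((j : ℕ) : K) * (((m + 1 : ℕ) : K) - ((j : ℕ) : K)) else 0 := by
    ext i j
    have hj := j.2
    simp only [dn, Matrix.of_apply, wF]
    by_cases hij : (j : ℕ) = i + 1
    · rw [if_pos hij, if_pos hij.symm, if_pos (by omega), hij]
      push_cast
      ring
    · rw [if_neg hij, if_neg (fun h => hij h.symm)]
  rw [h1, h2, h3]

theorem st_LIE : ST_LIE := by
  intro K _ _ n ψ N D a hn7 hdet _ hbr hψ hNa hN hN' hDa hDN hirr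
  classical
  rcases n with _ | m
  · left
    intro A _
    have h1 : A = 0 := Subsingleton.elim _ _
    rw [h1]
    exact a.zero_mem
  obtain ⟨P, α, hP, hDP⟩ := normal_form N D hN hN' hDN
  set Pi : Mt K m := ((P⁻¹ : Matrix.GeneralLinearGroup (Fin (m + 1)) K) : Mt K m) with hPi
  have hPP : (P : Mt K m) * Pi = 1 := by
    rw [hPi, ← Units.val_mul, mul_inv_cancel, Units.val_one]
  have hPP' : Pi * (P : Mt K m) = 1 := by
    rw [hPi, ← Units.val_mul, inv_mul_cancel, Units.val_one]
  -- conjugated Lie algebra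
  let g : Submodule K (Mt K m) :=
    { carrier := {X | (P : Mt K m) * X * Pi ∈ a}
      add_mem' := by
        intro X Y hX hY
        simp only [Set.mem_ofPred_eq, mul_add, add_mul] at hX hY ⊢
        exact a.add_mem hX hY
      zero_mem' := by
        simp only [Set.mem_ofPred_eq, mul_zero, zero_mul]
        exact a.zero_mem
      smul_mem' := by
        intro c X hX
        simp only [Set.mem_ofPred_eq, mul_smul_comm, smul_mul_assoc] at hX ⊢
        exact a.smul_mem c hX }
  have hg : ∀ X : Mt K m, X ∈ g ↔ (P : Mt K m) * X * Pi ∈ a := fun X => Iff.rfl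
  have hconj : ∀ A : Mt K m, (P : Mt K m) * (Pi * A * P) * Pi = A := by
    intro A
    rw [← mul_assoc, ← mul_assoc, hPP, one_mul, mul_assoc, hPP, mul_one]
  have hga : ∀ A ∈ a, Pi * A * P ∈ g := by
    intro A hA
    rw [hg, hconj]
    exact hA
  have heN : eM K m = Pi * N * P := by
    rw [mul_assoc, hP, ← mul_assoc, hPP', one_mul]
  have hxD : up m 0 (fun i => α + i) = Pi * D * P := by
    rw [mul_assoc, hDP, ← mul_assoc, hPP', one_mul]
  have S : Std m g :=
    { br := by
        intro X hX Y hY
        rw [hg] at hX hY ⊢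
        have h1 := hbr _ hX _ hY
        have h2 : (P : Mt K m) * X * Pi * (P * Y * Pi) - P * Y * Pi * (P * X * Pi) =
            P * bk X Y * Pi := by
          rw [bk, mul_sub, sub_mul]
          congr 1
          · calc (P : Mt K m) * X * Pi * (P * Y * Pi) = P * X * (Pi * P) * Y * Pi := by
                  simp only [mul_assoc]
              _ = P * (X * Y) * Pi := by rw [hPP', mul_one]; simp only [mul_assoc]
          · calc (P : Mt K m) * Y * Pi * (P * X * Pi) = P * Y * (Pi * P) * X * Pi := by
                  simp only [mul_assoc]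
              _ = P * (Y * X) * Pi := by rw [hPP', mul_one]; simp only [mul_assoc]
        rw [h2] at h1
        exact h1
      he := by rw [heN]; exact hga N hNa
      hx := ⟨α, by rw [hxD]; exact hga D hDa⟩
      irr := by
        intro U hU
        let U' : Submodule K (Fin (m + 1) → K) := U.comap (Matrix.mulVecLin Pi)
        have hU' : ∀ v, v ∈ U' ↔ Pi.mulVec v ∈ U := fun v => Iff.rfl
        rcases hirr U' (by
          intro A hA v hv
          rw [hU'] at hv ⊢
          have h1 := hU _ (hga A hA) _ hv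
          rw [Matrix.mulVec_mulVec, mul_assoc, hPP, mul_one, ← Matrix.mulVec_mulVec] at h1
          exact h1) with h | h
        · left
          rw [eq_bot_iff]
          intro v hv
          have h1 : (P : Mt K m).mulVec v ∈ U' := by
            rw [hU', Matrix.mulVec_mulVec, hPP', Matrix.one_mulVec]
            exact hv
          rw [h, Submodule.mem_bot] at h1
          rw [Submodule.mem_bot]
          have h2 := congrArg (fun u => Pi.mulVec u) h1
          simp only [Matrix.mulVec_mulVec, hPP', Matrix.one_mulVec, Matrix.mulVec_zero] at h2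
          exact h2
        · right
          rw [eq_top_iff]
          intro v _
          have h1 : (P : Mt K m).mulVec v ∈ U' := by rw [h]; exact Submodule.mem_top
          rw [hU', Matrix.mulVec_mulVec, hPP', Matrix.one_mulVec] at h1
          exact h1 }
  -- the form
  set ψ' : Mt K m := (P : Mt K m).transpose * ψ * P with hψ'
  have hrel : ∀ A : Mt K m, (Pi * A * P).transpose * ψ' + ψ' * (Pi * A * P) =
      (P : Mt K m).transpose * (A.transpose * ψ + ψ * A) * P := by
    intro A
    have hTT : Pi.transpose * (P : Mt K m).transpose = 1 := by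
      rw [← Matrix.transpose_mul, hPP, Matrix.transpose_one]
    rw [hψ', Matrix.transpose_mul, Matrix.transpose_mul, mul_add, add_mul]
    congr 1
    · calc (P : Mt K m).transpose * (A.transpose * Pi.transpose) * (P.val.transpose * ψ * P)
          = P.val.transpose * A.transpose * (Pi.transpose * P.val.transpose) * ψ * P := by
            simp only [mul_assoc]
        _ = P.val.transpose * (A.transpose * ψ) * P := by
            rw [hTT, mul_one]; simp only [mul_assoc]
    · calc (P : Mt K m).transpose * ψ * P * (Pi * A * P)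
          = P.val.transpose * ψ * (P * Pi) * A * P := by simp only [mul_assoc]
        _ = P.val.transpose * (ψ * A) * P := by rw [hPP, mul_one]; simp only [mul_assoc]
  have hψg : ∀ X ∈ g, ∃ c : K, X.transpose * ψ' + ψ' * X = c • ψ' := by
    intro X hX
    obtain ⟨c, hc⟩ := hψ _ hX
    refine ⟨c, ?_⟩
    have h1 : Pi * (P * X * Pi) * P = X := by
      rw [← mul_assoc, ← mul_assoc, hPP', one_mul, mul_assoc, hPP', mul_one]
    have h2 := hrel (P * X * Pi)
    rw [h1, hc] at h2
    rw [h2, hψ', mul_smul_comm, smul_mul_assoc]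
  have hdet' : ψ'.det ≠ 0 := by
    rw [hψ', Matrix.det_mul, Matrix.det_mul, Matrix.det_transpose]
    have h1 : (P : Mt K m).det ≠ 0 := by
      have h2 := congrArg Matrix.det hPP
      rw [Matrix.det_mul, Matrix.det_one] at h2
      exact left_ne_zero_of_mul_eq_one h2
    exact mul_ne_zero (mul_ne_zero h1 hdet) h1
  obtain ⟨c, hc⟩ := hψg _ S.he
  obtain ⟨c', hc'⟩ := hψg (up m 0 (fun i => α + i)) (by rw [hxD]; exact hga D hDa)
  obtain ⟨κ, hκ, hψκ⟩ := psi_form ψ' hdet' α c c' hc hc'
  rcases std_main S hκ (by rw [← hψκ]; exact hψg) with h | h | h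
  · left
    intro A hA
    have h1 := hrel A
    rw [hA, mul_zero, zero_mul, hψκ] at h1
    have h2 := h _ h1
    rw [hg, hconj] at h2
    exact h2
  · right
    refine ⟨by omega, P, fun A hA => ?_⟩
    have h1 := h.2 _ (hga A hA)
    rw [sl2S_eq] at h1
    exact h1
  · exact absurd (by omega : m + 1 = 7) hn7

end MT
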