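import Pool.Agent.Helper43.MT.LIE

/-!
# LIE, strong form: the Lie algebra contains a conjugate of `sl_2`; normalisers
-/

set_option autoImplicit false

namespace MT

/-- `sl_2` without the scalars -/
def sl2' (K : Type) [Field K] (n : ℕ) : Submodule K (Matrix (Fin n) (Fin n) K) :=
  Submodule.span K {
    Matrix.of fun i j : Fin n => if (i : ℕ) = (j : ℕ) + 1 then 1 else 0,
    Matrix.diagonal fun i : Fin n => (n : K) - 1 - 2 * ((i : ℕ) : K),
    Matrix.of fun i j : Fin n => if (i : ℕ) + 1 = (j : ℕ) then
      ((j : ℕ) : K) * ((n : K) - ((j : ℕ) : K)) else 0}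

theorem sl2'_eq (K : Type) [Field K] (m : ℕ) : sl2' K (m + 1) =
    Submodule.span K {eM K m, up m 0 (fun i => (m : K) - 2 * i), dn m 1 (wF K m)} := by
  unfold sl2'
  congr 1
  have h1 : eM K m = Matrix.of fun i j : Fin (m + 1) =>
      if (i : ℕ) = (j : ℕ) + 1 then (1 : K) else 0 := rfl
  have h2 : up m 0 (fun i => (m : K) - 2 * i) =
      Matrix.diagonal fun i : Fin (m + 1) => ((m + 1 : ℕ) : K) - 1 - 2 * ((i : ℕ) : K) := by
    ext i j
    simp only [up, Matrix.of_apply, Nat.add_zero]
    by_cases hij : i = j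
    · subst hij
      rw [if_pos rfl, Matrix.diagonal_apply_eq]
      push_cast
      ring
    · rw [if_neg (fun h => hij (Fin.ext h)), Matrix.diagonal_apply_ne _ hij]
  have h3 : dn m 1 (wF K m) = Matrix.of fun i j : Fin (m + 1) => if (i : ℕ) + 1 = (j : ℕ) then
      ((j : ℕ) : K) * (((m + 1 : ℕ) : K) - ((j : ℕ) : K)) else 0 := by
    ext i j
    have hj := j.2
    simp only [dn, Matrix.of_apply, wF]
    by_cases hij : (j : ℕ) = i + 1
    · rw [if_pos hij, if_pos hij.symm, if_pos (by omega), hij]
      push_cast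
      ring
    · rw [if_neg hij, if_neg (fun h => hij h.symm)]
  rw [h1, h2, h3]

theorem sl2'_le {K : Type} [Field K] [CharZero K] {m : ℕ} {g : Submodule K (Mt K m)}
    (S : Std m g) : sl2' K (m + 1) ≤ g := by
  have T := tri_of_std S
  obtain ⟨-, hw⟩ := w_mem T (nd1 S) (ndm S)
  rw [sl2'_eq, Submodule.span_le]
  have hH : up m 0 (fun i => (m : K) - 2 * i) ∈ g := by
    have h1 := g.neg_mem (S.br _ T.one1.2 _ hw.2)
    rw [bk_up_dn (T.s1 _ T.one1)] at h1
    convert h1 using 1
    ext i j
    have hi := i.2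
    have hj := j.2
    simp only [up, Matrix.of_apply, Matrix.neg_apply, Nat.add_zero]
    by_cases hij : (i : ℕ) = j
    · rw [if_pos hij, if_pos hij]
      rcases Nat.eq_zero_or_pos (j : ℕ) with h0 | h0
      · rw [h0]
        simp only [if_true, oneF, wF]
        by_cases hm : 0 < m
        · simp only [hm, if_true]; push_cast; ring
        · have : m = 0 := by omega
          subst this
          simp
      · rw [if_neg h0.ne']
        simp only [oneF, wF, show (j : ℕ) - 1 < m by omega, if_true]
        have h2 : (((j : ℕ) - 1 : ℕ) : K) = ((j : ℕ) : K) - 1 := by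
          rw [Nat.cast_sub (by omega), Nat.cast_one]
        rw [h2]
        by_cases hm : (j : ℕ) < m
        · simp only [hm, if_true]; ring
        · have h3 : (j : ℕ) = m := by omega
          simp only [if_neg hm]
          rw [h3]
          ring
    · rw [if_neg hij, if_neg hij, neg_zero]
  intro X hX
  simp only [Set.mem_insert_iff, Set.mem_singleton_iff] at hX
  rcases hX with rfl | rfl | rfl
  · exact S.he
  · exact hH
  · exact hw.2

/-- LIE, strong form -/
theorem lie_strong (K : Type) [Field K] [CharZero K] (n : ℕ) (ψ N D : Matrix (Fin n) (Fin n) K)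
    (a : Submodule K (Matrix (Fin n) (Fin n) K)) (hn7 : n ≠ 7) (hdet : ψ.det ≠ 0)
    (hbr : ∀ A ∈ a, ∀ B ∈ a, A * B - B * A ∈ a)
    (hψ : ∀ A ∈ a, ∃ c : K, A.transpose * ψ + ψ * A = c • ψ) (hNa : N ∈ a) (hN : N ^ n = 0)
    (hN' : N ^ (n - 1) ≠ 0) (hDa : D ∈ a) (hDN : D * N - N * D = N)
    (hirr : ∀ W : Submodule K (Fin n → K), (∀ A ∈ a, ∀ v ∈ W, A.mulVec v ∈ W) → W = ⊥ ∨ W = ⊤) :
    (∀ A : Matrix (Fin n) (Fin n) K, A.transpose * ψ + ψ * A = 0 → A ∈ a) ∨
      (4 ≤ n ∧ ∃ P : Matrix.GeneralLinearGroup (Fin n) K, (∀ A ∈ a,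
        ((P⁻¹ : Matrix.GeneralLinearGroup (Fin n) K) : Matrix (Fin n) (Fin n) K) * A *
          (P : Matrix (Fin n) (Fin n) K) ∈ sl2 K n) ∧
        ∀ B ∈ sl2' K n, (P : Matrix (Fin n) (Fin n) K) * B *
          ((P⁻¹ : Matrix.GeneralLinearGroup (Fin n) K) : Matrix (Fin n) (Fin n) K) ∈ a) := by
  classical
  rcases n with _ | m
  · left
    intro A _
    have h1 : A = 0 := Subsingleton.elim _ _
    rw [h1]
    exact a.zero_mem
  obtain ⟨P, α, hP, hDP⟩ := normal_form N D hN hN' hDN
  set Pi : Mt K m := ((P⁻¹ : Matrix.GeneralLinearGroup (Fin (m + 1)) K) : Mt K m) with hPi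
  have hPP : (P : Mt K m) * Pi = 1 := by
    rw [hPi, ← Units.val_mul, mul_inv_cancel, Units.val_one]
  have hPP' : Pi * (P : Mt K m) = 1 := by
    rw [hPi, ← Units.val_mul, inv_mul_cancel, Units.val_one]
  -- conjugated Lie algebra
  let g : Submodule K (Mt K m) :=
    { carrier := {X | (P : Mt K m) * X * Pi ∈ a}
      add_mem' := by
        intro X Y hX hY
        simp only [Set.mem_ofPred_eq, mul_add, add_mul] at hX hY ⊢
        exact a.add_mem hX hY
      zero_mem' := by
        simp only [Set.mem_ofPred_eq, mul_zero, zero_mul]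
        exact a.zero_mem
      smul_mem' := by
        intro c X hX
        simp only [Set.mem_ofPred_eq, mul_smul_comm, smul_mul_assoc] at hX ⊢
        exact a.smul_mem c hX }
  have hg : ∀ X : Mt K m, X ∈ g ↔ (P : Mt K m) * X * Pi ∈ a := fun X => Iff.rfl
  have hconj : ∀ A : Mt K m, (P : Mt K m) * (Pi * A * P) * Pi = A := by
    intro A
    rw [← mul_assoc, ← mul_assoc, hPP, one_mul, mul_assoc, hPP, mul_one]
  have hga : ∀ A ∈ a, Pi * A * P ∈ g := by
    intro A hA
    rw [hg, hconj]
    exact hA
  have heN : eM K m = Pi * N * P := by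
    rw [mul_assoc, hP, ← mul_assoc, hPP', one_mul]
  have hxD : up m 0 (fun i => α + i) = Pi * D * P := by
    rw [mul_assoc, hDP, ← mul_assoc, hPP', one_mul]
  have S : Std m g :=
    { br := by
        intro X hX Y hY
        rw [hg] at hX hY ⊢
        have h1 := hbr _ hX _ hY
        have h2 : (P : Mt K m) * X * Pi * (P * Y * Pi) - P * Y * Pi * (P * X * Pi) =
            P * bk X Y * Pi := by
          rw [bk, mul_sub, sub_mul]
          congr 1
          · calc (P : Mt K m) * X * Pi * (P * Y * Pi) = P * X * (Pi * P) * Y * Pi := by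
                  simp only [mul_assoc]
              _ = P * (X * Y) * Pi := by rw [hPP', mul_one]; simp only [mul_assoc]
          · calc (P : Mt K m) * Y * Pi * (P * X * Pi) = P * Y * (Pi * P) * X * Pi := by
                  simp only [mul_assoc]
              _ = P * (Y * X) * Pi := by rw [hPP', mul_one]; simp only [mul_assoc]
        rw [h2] at h1
        exact h1
      he := by rw [heN]; exact hga N hNa
      hx := ⟨α, by rw [hxD]; exact hga D hDa⟩
      irr := by
        intro U hU
        let U' : Submodule K (Fin (m + 1) → K) := U.comap (Matrix.mulVecLin Pi)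
        have hU' : ∀ v, v ∈ U' ↔ Pi.mulVec v ∈ U := fun v => Iff.rfl
        rcases hirr U' (by
          intro A hA v hv
          rw [hU'] at hv ⊢
          have h1 := hU _ (hga A hA) _ hv
          rw [Matrix.mulVec_mulVec, mul_assoc, hPP, mul_one, ← Matrix.mulVec_mulVec] at h1
          exact h1) with h | h
        · left
          rw [eq_bot_iff]
          intro v hv
          have h1 : (P : Mt K m).mulVec v ∈ U' := by
            rw [hU', Matrix.mulVec_mulVec, hPP', Matrix.one_mulVec]
            exact hv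
          rw [h, Submodule.mem_bot] at h1
          rw [Submodule.mem_bot]
          have h2 := congrArg (fun u => Pi.mulVec u) h1
          simp only [Matrix.mulVec_mulVec, hPP', Matrix.one_mulVec, Matrix.mulVec_zero] at h2
          exact h2
        · right
          rw [eq_top_iff]
          intro v _
          have h1 : (P : Mt K m).mulVec v ∈ U' := by rw [h]; exact Submodule.mem_top
          rw [hU', Matrix.mulVec_mulVec, hPP', Matrix.one_mulVec] at h1
          exact h1 }
  -- the form
  set ψ' : Mt K m := (P : Mt K m).transpose * ψ * P with hψ'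
  have hrel : ∀ A : Mt K m, (Pi * A * P).transpose * ψ' + ψ' * (Pi * A * P) =
      (P : Mt K m).transpose * (A.transpose * ψ + ψ * A) * P := by
    intro A
    have hTT : Pi.transpose * (P : Mt K m).transpose = 1 := by
      rw [← Matrix.transpose_mul, hPP, Matrix.transpose_one]
    rw [hψ', Matrix.transpose_mul, Matrix.transpose_mul, mul_add, add_mul]
    congr 1
    · calc (P : Mt K m).transpose * (A.transpose * Pi.transpose) * (P.val.transpose * ψ * P)
          = P.val.transpose * A.transpose * (Pi.transpose * P.val.transpose) * ψ * P := by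
            simp only [mul_assoc]
        _ = P.val.transpose * (A.transpose * ψ) * P := by
            rw [hTT, mul_one]; simp only [mul_assoc]
    · calc (P : Mt K m).transpose * ψ * P * (Pi * A * P)
          = P.val.transpose * ψ * (P * Pi) * A * P := by simp only [mul_assoc]
        _ = P.val.transpose * (ψ * A) * P := by rw [hPP, mul_one]; simp only [mul_assoc]
  have hψg : ∀ X ∈ g, ∃ c : K, X.transpose * ψ' + ψ' * X = c • ψ' := by
    intro X hX
    obtain ⟨c, hc⟩ := hψ _ hX
    refine ⟨c, ?_⟩
    have h1 : Pi * (P * X * Pi) * P = X := by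
      rw [← mul_assoc, ← mul_assoc, hPP', one_mul, mul_assoc, hPP', mul_one]
    have h2 := hrel (P * X * Pi)
    rw [h1, hc] at h2
    rw [h2, hψ', mul_smul_comm, smul_mul_assoc]
  have hdet' : ψ'.det ≠ 0 := by
    rw [hψ', Matrix.det_mul, Matrix.det_mul, Matrix.det_transpose]
    have h1 : (P : Mt K m).det ≠ 0 := by
      have h2 := congrArg Matrix.det hPP
      rw [Matrix.det_mul, Matrix.det_one] at h2
      exact left_ne_zero_of_mul_eq_one h2
    exact mul_ne_zero (mul_ne_zero h1 hdet) h1
  obtain ⟨c, hc⟩ := hψg _ S.he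
  obtain ⟨c', hc'⟩ := hψg (up m 0 (fun i => α + i)) (by rw [hxD]; exact hga D hDa)
  obtain ⟨κ, hκ, hψκ⟩ := psi_form ψ' hdet' α c c' hc hc'
  rcases std_main S hκ (by rw [← hψκ]; exact hψg) with h | h | h
  · left
    intro A hA
    have h1 := hrel A
    rw [hA, mul_zero, zero_mul, hψκ] at h1
    have h2 := h _ h1
    rw [hg, hconj] at h2
    exact h2
  · right
    refine ⟨by omega, P, fun A hA => ?_, fun B hB => ?_⟩
    · have h1 := h.2 _ (hga A hA)
      rw [sl2S_eq] at h1
      exact h1
    · exact (hg B).mp (sl2'_le S hB)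
  · exact absurd (by omega : m + 1 = 7) hn7

/-- the statement on normalisers of `sl_2` over algebraically closed fields -/
def NRM : Prop :=
  ∀ (C : Type) [Field C] [CharZero C] [IsAlgClosed C] (n : ℕ), 1 ≤ n →
    ∀ g : Matrix.GeneralLinearGroup (Fin n) C,
      (∀ A ∈ sl2 C n, (g : Matrix (Fin n) (Fin n) C) * A *
        ((g⁻¹ : Matrix.GeneralLinearGroup (Fin n) C) : Matrix (Fin n) (Fin n) C) ∈ sl2 C n) →
      (∃ c r : C, (g : Matrix (Fin n) (Fin n) C).charpoly =
        ∏ j : Fin n, (Polynomial.X - Polynomial.C (c * r ^ (j : ℕ)))) ∧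
      (((g : Matrix (Fin n) (Fin n) C) - 1) ^ (n - 1) = 0 → (g : Matrix (Fin n) (Fin n) C) = 1)

theorem sl2_map {K C : Type} [Field K] [Field C] [Algebra K C] (n : ℕ) :
    ∀ A ∈ sl2 K n, A.map (algebraMap K C) ∈ sl2 C n := by
  intro A hA
  induction hA using Submodule.span_induction with
  | mem x hx =>
    apply Submodule.subset_span
    simp only [Set.mem_insert_iff, Set.mem_singleton_iff] at hx ⊢
    rcases hx with rfl | rfl | rfl | rfl
    · left
      rw [Matrix.map_one _ (map_zero _) (map_one _)]
    · right; left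
      ext i j
      simp only [Matrix.map_apply, Matrix.of_apply]
      split_ifs <;> simp
    · right; right; left
      rw [Matrix.diagonal_map (map_zero _)]
      congr 1
      ext i
      simp only [map_sub, map_mul, map_natCast, map_one, map_ofNat]
    · right; right; right
      ext i j
      simp only [Matrix.map_apply, Matrix.of_apply]
      split_ifs <;> simp
  | zero =>
    rw [Matrix.map_zero _ (map_zero _)]
    exact Submodule.zero_mem _
  | add x y _ _ hx hy =>
    have h1 : (x + y).map (algebraMap K C) = x.map (algebraMap K C) + y.map (algebraMap K C) := by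
      ext i j; simp
    rw [h1]
    exact Submodule.add_mem _ hx hy
  | smul c x _ hx =>
    have h1 : (c • x).map (algebraMap K C) = algebraMap K C c • x.map (algebraMap K C) := by
      ext i j; simp
    rw [h1]
    exact Submodule.smul_mem _ _ hx

theorem sl2_base {K C : Type} [Field K] [Field C] [Algebra K C] (n : ℕ) :
    sl2 C n ≤ Submodule.span C {B | ∃ A ∈ sl2 K n, B = A.map (algebraMap K C)} := by
  rw [sl2, Submodule.span_le]
  intro x hx
  apply Submodule.subset_span
  simp only [Set.mem_insert_iff, Set.mem_singleton_iff] at hx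
  rcases hx with rfl | rfl | rfl | rfl
  · refine ⟨1, Submodule.subset_span (by simp), ?_⟩
    rw [Matrix.map_one _ (map_zero _) (map_one _)]
  · refine ⟨Matrix.of fun i j : Fin n => if (i : ℕ) = (j : ℕ) + 1 then 1 else 0,
      Submodule.subset_span (by simp), ?_⟩
    ext i j
    simp only [Matrix.map_apply, Matrix.of_apply]
    split_ifs <;> simp
  · refine ⟨Matrix.diagonal fun i : Fin n => (n : K) - 1 - 2 * ((i : ℕ) : K),
      Submodule.subset_span (by simp), ?_⟩
    rw [Matrix.diagonal_map (map_zero _)]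
    congr 1
    ext i
    simp only [map_sub, map_mul, map_natCast, map_one, map_ofNat]
  · refine ⟨Matrix.of fun i j : Fin n => if (i : ℕ) + 1 = (j : ℕ) then
      ((j : ℕ) : K) * ((n : K) - ((j : ℕ) : K)) else 0, Submodule.subset_span (by simp), ?_⟩
    ext i j
    simp only [Matrix.map_apply, Matrix.of_apply]
    split_ifs <;> simp

/-- elements which normalise the Lie algebra in the second alternative of LIE -/
theorem nrm_K (hNRM : NRM) (K : Type) [Field K] [CharZero K] (n : ℕ) (hn : 1 ≤ n)
    (a : Submodule K (Matrix (Fin n) (Fin n) K)) (P : Matrix.GeneralLinearGroup (Fin n) K)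
    (h1 : ∀ A ∈ a, ((P⁻¹ : Matrix.GeneralLinearGroup (Fin n) K) : Matrix (Fin n) (Fin n) K) * A *
          (P : Matrix (Fin n) (Fin n) K) ∈ sl2 K n)
    (h2 : ∀ B ∈ sl2' K n, (P : Matrix (Fin n) (Fin n) K) * B *
          ((P⁻¹ : Matrix.GeneralLinearGroup (Fin n) K) : Matrix (Fin n) (Fin n) K) ∈ a)
    (g : Matrix.GeneralLinearGroup (Fin n) K)
    (hg : ∀ A ∈ a, (g : Matrix (Fin n) (Fin n) K) * A *
      ((g⁻¹ : Matrix.GeneralLinearGroup (Fin n) K) : Matrix (Fin n) (Fin n) K) ∈ a) :
    (∃ c r : AlgebraicClosure K,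
      (g : Matrix (Fin n) (Fin n) K).charpoly.map (algebraMap K (AlgebraicClosure K)) =
        ∏ j : Fin n, (Polynomial.X - Polynomial.C (c * r ^ (j : ℕ)))) ∧
    (((g : Matrix (Fin n) (Fin n) K) - 1) ^ (n - 1) = 0 → (g : Matrix (Fin n) (Fin n) K) = 1) := by
  classical
  let C := AlgebraicClosure K
  let gP : Matrix.GeneralLinearGroup (Fin n) K := P⁻¹ * g * P
  have hgP : ∀ A ∈ sl2 K n, (gP : Matrix (Fin n) (Fin n) K) * A *
      ((gP⁻¹ : Matrix.GeneralLinearGroup (Fin n) K) : Matrix (Fin n) (Fin n) K) ∈ sl2 K n := by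
    have hgen : ∀ B ∈ sl2' K n, (gP : Matrix (Fin n) (Fin n) K) * B *
        ((gP⁻¹ : Matrix.GeneralLinearGroup (Fin n) K) : Matrix (Fin n) (Fin n) K) ∈ sl2 K n := by
      intro B hB
      have h3 := h1 _ (hg _ (h2 B hB))
      have h4 : (gP : Matrix (Fin n) (Fin n) K) * B *
          ((gP⁻¹ : Matrix.GeneralLinearGroup (Fin n) K) : Matrix (Fin n) (Fin n) K) =
          ((P⁻¹ : Matrix.GeneralLinearGroup (Fin n) K) : Matrix (Fin n) (Fin n) K) *
            ((g : Matrix (Fin n) (Fin n) K) * ((P : Matrix (Fin n) (Fin n) K) * B *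
            ((P⁻¹ : Matrix.GeneralLinearGroup (Fin n) K) : Matrix (Fin n) (Fin n) K)) *
            ((g⁻¹ : Matrix.GeneralLinearGroup (Fin n) K) : Matrix (Fin n) (Fin n) K)) *
            (P : Matrix (Fin n) (Fin n) K) := by
        have h5 : gP⁻¹ = P⁻¹ * g⁻¹ * P := by simp only [gP]; group
        rw [h5]
        simp only [gP, Units.val_mul, Matrix.mul_assoc]
      rw [h4]
      exact h3
    intro A hA
    induction hA using Submodule.span_induction with
    | mem x hx =>
      simp only [Set.mem_insert_iff, Set.mem_singleton_iff] at hx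
      rcases hx with rfl | hx
      · rw [mul_one, ← Units.val_mul, mul_inv_cancel, Units.val_one]
        exact Submodule.subset_span (by simp)
      · exact hgen x (Submodule.subset_span (by
          simp only [Set.mem_insert_iff, Set.mem_singleton_iff]; exact hx))
    | zero => rw [mul_zero, zero_mul]; exact Submodule.zero_mem _
    | add x y _ _ hx hy => rw [mul_add, add_mul]; exact Submodule.add_mem _ hx hy
    | smul c x _ hx =>
      rw [mul_smul_comm, smul_mul_assoc]; exact Submodule.smul_mem _ _ hx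
  let gC : Matrix.GeneralLinearGroup (Fin n) C :=
    Matrix.GeneralLinearGroup.map (algebraMap K C) gP
  have hgC : (gC : Matrix (Fin n) (Fin n) C) = (gP : Matrix (Fin n) (Fin n) K).map (algebraMap K C) :=
    rfl
  have hgC' : ((gC⁻¹ : Matrix.GeneralLinearGroup (Fin n) C) : Matrix (Fin n) (Fin n) C) =
      ((gP⁻¹ : Matrix.GeneralLinearGroup (Fin n) K) : Matrix (Fin n) (Fin n) K).map
        (algebraMap K C) := by
    have h3 : gC⁻¹ = Matrix.GeneralLinearGroup.map (algebraMap K C) gP⁻¹ := by
      simp only [gC, map_inv]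
    rw [h3]
    rfl
  have key := hNRM C n hn gC (by
    intro A hA
    have h3 := sl2_base (K := K) (C := C) n hA
    clear hA
    induction h3 using Submodule.span_induction with
    | mem x hx =>
      obtain ⟨B, hB, rfl⟩ := hx
      rw [hgC, hgC', ← Matrix.map_mul, ← Matrix.map_mul]
      exact sl2_map n _ (hgP B hB)
    | zero => rw [mul_zero, zero_mul]; exact Submodule.zero_mem _
    | add x y _ _ hx hy => rw [mul_add, add_mul]; exact Submodule.add_mem _ hx hy
    | smul c x _ hx =>
      rw [mul_smul_comm, smul_mul_assoc]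
      exact Submodule.smul_mem _ _ hx)
  obtain ⟨⟨c, r, hcr⟩, huni⟩ := key
  have hPinv : ((P⁻¹ : Matrix.GeneralLinearGroup (Fin n) K) : Matrix (Fin n) (Fin n) K) *
      (P : Matrix (Fin n) (Fin n) K) = 1 := by
    rw [← Units.val_mul, inv_mul_cancel, Units.val_one]
  have hPinv' : (P : Matrix (Fin n) (Fin n) K) *
      ((P⁻¹ : Matrix.GeneralLinearGroup (Fin n) K) : Matrix (Fin n) (Fin n) K) = 1 := by
    rw [← Units.val_mul, mul_inv_cancel, Units.val_one]
  have hgPval : (gP : Matrix (Fin n) (Fin n) K) =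
      ((P⁻¹ : Matrix.GeneralLinearGroup (Fin n) K) : Matrix (Fin n) (Fin n) K) *
        (g : Matrix (Fin n) (Fin n) K) * (P : Matrix (Fin n) (Fin n) K) := rfl
  refine ⟨⟨c, r, ?_⟩, fun h => ?_⟩
  · rw [← hcr, hgC, Matrix.charpoly_map, hgPval]
    congr 1
    rw [Matrix.coe_units_inv]
    exact (Matrix.charpoly_units_conj' P _).symm
  · have h4 : ∀ k : ℕ, ((gP : Matrix (Fin n) (Fin n) K) - 1) ^ k =
        ((P⁻¹ : Matrix.GeneralLinearGroup (Fin n) K) : Matrix (Fin n) (Fin n) K) *
          ((g : Matrix (Fin n) (Fin n) K) - 1) ^ k * (P : Matrix (Fin n) (Fin n) K) := by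
      intro k
      induction k with
      | zero => rw [pow_zero, pow_zero, mul_one, hPinv]
      | succ k ih =>
        have h5 : (gP : Matrix (Fin n) (Fin n) K) - 1 =
            ((P⁻¹ : Matrix.GeneralLinearGroup (Fin n) K) : Matrix (Fin n) (Fin n) K) *
              ((g : Matrix (Fin n) (Fin n) K) - 1) * (P : Matrix (Fin n) (Fin n) K) := by
          rw [hgPval, mul_sub, sub_mul, mul_one, hPinv]
        rw [pow_succ, ih, h5, pow_succ]
        calc _ = ((P⁻¹ : Matrix.GeneralLinearGroup (Fin n) K) : Matrix (Fin n) (Fin n) K) *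
              ((g : Matrix (Fin n) (Fin n) K) - 1) ^ k * ((P : Matrix (Fin n) (Fin n) K) *
              ((P⁻¹ : Matrix.GeneralLinearGroup (Fin n) K) : Matrix (Fin n) (Fin n) K)) *
              ((g : Matrix (Fin n) (Fin n) K) - 1) * (P : Matrix (Fin n) (Fin n) K) := by
                simp only [mul_assoc]
          _ = _ := by rw [hPinv', mul_one]; simp only [mul_assoc]
    have h5 : ((gC : Matrix (Fin n) (Fin n) C) - 1) ^ (n - 1) = 0 := by
      have h6 : (gC : Matrix (Fin n) (Fin n) C) - 1 =
          (algebraMap K C).mapMatrix ((gP : Matrix (Fin n) (Fin n) K) - 1) := by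
        rw [map_sub, map_one]
        rfl
      rw [h6, ← map_pow, h4, h, mul_zero, zero_mul, map_zero]
    have h6 := huni h5
    have h7 : (gP : Matrix (Fin n) (Fin n) K) = 1 := by
      have h8 : (algebraMap K C).mapMatrix (gP : Matrix (Fin n) (Fin n) K) =
          (algebraMap K C).mapMatrix 1 := by
        rw [map_one, ← h6]
        rfl
      have hinj : Function.Injective ((algebraMap K C).mapMatrix (m := Fin n)) := by
        intro X Y hXY
        ext i j
        exact (algebraMap K C).injective (congrFun (congrFun hXY i) j)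
      exact hinj h8
    rw [hgPval] at h7
    calc (g : Matrix (Fin n) (Fin n) K) = ((P : Matrix (Fin n) (Fin n) K) *
          ((P⁻¹ : Matrix.GeneralLinearGroup (Fin n) K) : Matrix (Fin n) (Fin n) K)) *
          (g : Matrix (Fin n) (Fin n) K) * ((P : Matrix (Fin n) (Fin n) K) *
          ((P⁻¹ : Matrix.GeneralLinearGroup (Fin n) K) : Matrix (Fin n) (Fin n) K)) := by
            rw [hPinv', one_mul, mul_one]
      _ = (P : Matrix (Fin n) (Fin n) K) *
          (((P⁻¹ : Matrix.GeneralLinearGroup (Fin n) K) : Matrix (Fin n) (Fin n) K) *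
          (g : Matrix (Fin n) (Fin n) K) * (P : Matrix (Fin n) (Fin n) K)) *
          ((P⁻¹ : Matrix.GeneralLinearGroup (Fin n) K) : Matrix (Fin n) (Fin n) K) := by
            simp only [mul_assoc]
      _ = 1 := by rw [h7, mul_one, hPinv']

end MT
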