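import Mathlib

/-!
# Lie algebras containing a regular nilpotent element: the combinatorial part

Functions on `[0, m)` are functions `ℕ → K` which vanish outside `[0, m)`. `lap` is the discrete
Laplacian with Dirichlet boundary conditions.
-/

set_option autoImplicit false

namespace MT

variable {K : Type} [Field K]

/-- supported on `[0, m)` -/
def Supp (m : ℕ) (u : ℕ → K) : Prop := ∀ i, m ≤ i → u i = 0

/-- the Dirichlet Laplacian on `[0, m)` -/
def lap (m : ℕ) (u : ℕ → K) : ℕ → K := fun i =>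
  if i < m then (if i = 0 then 0 else u (i - 1)) - 2 * u i + u (i + 1) else 0

/-- the indicator function of `[0, m)` -/
def oneF (K : Type) [Field K] (m : ℕ) : ℕ → K := fun i => if i < m then 1 else 0

/-- the function `w i = (i + 1) (m - i)` on `[0, m)` -/
def wF (K : Type) [Field K] (m : ℕ) : ℕ → K := fun i => if i < m then ((i + 1) * (m - i) : K) else 0

theorem lap_inj [CharZero K] {m : ℕ} {u : ℕ → K} (hu : Supp m u) (h : ∀ i, i < m → lap m u i = 0) :
    ∀ i, u i = 0 := by
  have h1 : ∀ i, i ≤ m → u i = (i + 1) * u 0 := by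
    intro i
    induction i using Nat.strong_induction_on with
    | _ i ih =>
      intro hi
      rcases i with _ | i
      · simp
      rcases i with _ | i
      · have h2 := h 0 (by omega)
        simp only [lap, show (0 : ℕ) < m by omega, if_true] at h2
        push_cast
        linear_combination h2
      · have h2 := h (i + 1) (by omega)
        have h3 : i + 1 < m := by omega
        simp only [lap, h3, if_true, Nat.add_sub_cancel] at h2
        rw [if_neg (by omega)] at h2
        have h4 := ih i (by omega) (by omega)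
        have h5 := ih (i + 1) (by omega) (by omega)
        push_cast at h4 h5 ⊢
        linear_combination h2 - h4 + 2 * h5
  have h6 := h1 m le_rfl
  rw [hu m le_rfl] at h6
  have h7 : ((m : K) + 1) ≠ 0 := by exact_mod_cast Nat.succ_ne_zero m
  have h8 : u 0 = 0 := by
    rcases mul_eq_zero.mp h6.symm with h | h
    · exact absurd h h7
    · exact h
  intro i
  rcases Nat.lt_or_ge i m with hi | hi
  · rw [h1 i hi.le, h8, mul_zero]
  · exact hu i hi

/-- the length of the interval of `b` which ends at `i` -/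
noncomputable def lenL (b : ℕ → Prop) : ℕ → ℕ
  | 0 => by classical exact if b 0 then 1 else 0
  | (i + 1) => by classical exact if b (i + 1) then lenL b i + 1 else 0

theorem lenL_pos {b : ℕ → Prop} {i : ℕ} (h : b i) : 0 < lenL b i := by
  classical
  rcases i with _ | i
  · simp [lenL, h]
  · simp [lenL, h]

theorem lenL_zero {b : ℕ → Prop} {i : ℕ} (h : ¬ b i) : lenL b i = 0 := by
  classical
  rcases i with _ | i
  · simp [lenL, h]
  · simp [lenL, h]

theorem lenL_succ {b : ℕ → Prop} {i : ℕ} (h : b (i + 1)) : lenL b (i + 1) = lenL b i + 1 := by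
  classical
  simp [lenL, h]

/-- the relation between consecutive values on an interval -/
theorem rec_up [CharZero K] {b : ℕ → Prop} {u : ℕ → K} {c : K} (h0 : ∀ i, ¬ b i → u i = 0)
    (hc : ∀ i, b i → (if i = 0 then 0 else u (i - 1)) - 2 * u i + u (i + 1) = c) :
    ∀ i, b i → 2 * (lenL b i : K) * u (i + 1) =
      2 * ((lenL b i : K) + 1) * u i + c * (lenL b i : K) * ((lenL b i : K) + 1) := by
  intro i
  induction i with
  | zero =>
    intro hb
    have h1 := hc 0 hb
    have h2 : lenL b 0 = 1 := by classical simp [lenL, hb]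
    rw [h2]
    simp only [if_true] at h1
    push_cast
    linear_combination 2 * h1
  | succ i ih =>
    intro hb
    have h1 := hc (i + 1) hb
    rw [if_neg (Nat.succ_ne_zero i), Nat.add_sub_cancel] at h1
    rw [lenL_succ hb]
    by_cases hi : b i
    · have h2 := ih hi
      push_cast
      linear_combination (2 * ((lenL b i : K) + 1)) * h1 + h2
    · rw [lenL_zero hi]
      rw [h0 i hi] at h1
      push_cast
      linear_combination 2 * h1

/-- the solution of `lap u = c` on the union of intervals `b`, with `u = 0` outside -/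
theorem key_interval [CharZero K] {m : ℕ} {b : ℕ → Prop} (hbm : ∀ i, b i → i < m) {u : ℕ → K} {c : K}
    (h0 : ∀ i, ¬ b i → u i = 0)
    (hc : ∀ i, b i → (if i = 0 then 0 else u (i - 1)) - 2 * u i + u (i + 1) = c) :
    ∀ i, b i → ∃ N : ℕ, 0 < N ∧ 2 * u i = -c * N := by
  have h1 := rec_up h0 hc
  have h2 : ∀ d i, d + i = m → b i → ∃ r : ℕ, 0 < r ∧ 2 * u i = -c * ((lenL b i : K) * r) := by
    intro d
    induction d with
    | zero =>
      intro i hi hb
      exact absurd (hbm i hb) (by omega)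
    | succ d ih =>
      intro i hi hb
      have h3 := h1 i hb
      have h4 : ((lenL b i : K) + 1) ≠ 0 := by exact_mod_cast Nat.succ_ne_zero (lenL b i)
      by_cases hb' : b (i + 1)
      · obtain ⟨r, hr, hr'⟩ := ih (i + 1) (by omega) hb'
        refine ⟨r + 1, by omega, ?_⟩
        rw [lenL_succ hb'] at hr'
        apply mul_left_cancel₀ h4
        push_cast at hr' ⊢
        linear_combination (lenL b i : K) * hr' - h3
      · refine ⟨1, by omega, ?_⟩
        rw [h0 _ hb'] at h3
        apply mul_left_cancel₀ h4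
        push_cast
        linear_combination -h3
  intro i hb
  obtain ⟨r, hr, hr'⟩ := h2 (m - i) i (by have := hbm i hb; omega) hb
  refine ⟨lenL b i * r, Nat.mul_pos (lenL_pos hb) hr, ?_⟩
  rw [hr']
  push_cast
  ring

/-- the structure of the parts of degree `1`, `0`, `-1` -/
structure Tri (m : ℕ) (W1 W0 Wm : Submodule K (ℕ → K)) : Prop where
  s1 : ∀ u ∈ W1, Supp m u
  s0 : ∀ u ∈ W0, Supp m u
  sm : ∀ u ∈ Wm, Supp m u
  one1 : oneF K m ∈ W1
  one0 : oneF K m ∈ W0
  mul1 : ∀ z ∈ W0, ∀ u ∈ W1, z * u ∈ W1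
  mulm : ∀ z ∈ W0, ∀ u ∈ Wm, z * u ∈ Wm
  brk : ∀ s ∈ W1, ∀ y ∈ Wm, lap m (s * y) ∈ W0

/-- the blocks of `W0` -/
def Rel (W0 : Submodule K (ℕ → K)) (i j : ℕ) : Prop := ∀ z ∈ W0, z i = z j

theorem Rel.symm' {W0 : Submodule K (ℕ → K)} {i j : ℕ} (h : Rel W0 i j) : Rel W0 j i :=
  fun z hz => (h z hz).symm

theorem Rel.trans' {W0 : Submodule K (ℕ → K)} {i j k : ℕ} (h : Rel W0 i j) (h' : Rel W0 j k) :
    Rel W0 i k := fun z hz => (h z hz).trans (h' z hz)

/-- multiplication by the indicator function of a block -/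
noncomputable def blk (m : ℕ) (W0 : Submodule K (ℕ → K)) (c : ℕ) (u : ℕ → K) : ℕ → K := by
  classical
  exact fun i => if i < m ∧ Rel W0 i c then u i else 0

theorem blk_of {m : ℕ} {W0 : Submodule K (ℕ → K)} {c i : ℕ} (u : ℕ → K) (hi : i < m)
    (h : Rel W0 i c) : blk m W0 c u i = u i := by
  simp [blk, hi, h]

theorem blk_of_not {m : ℕ} {W0 : Submodule K (ℕ → K)} {c i : ℕ} (u : ℕ → K)
    (h : ¬ (i < m ∧ Rel W0 i c)) : blk m W0 c u i = 0 := by
  simp only [blk]
  rw [if_neg h]

/-- a subspace stable under multiplication by `W0` is stable under the projections to blocks -/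
theorem blk_mem {m : ℕ} {W0 R : Submodule K (ℕ → K)} (h0 : oneF K m ∈ W0)
    (hR : ∀ u ∈ R, Supp m u) (hmul : ∀ z ∈ W0, ∀ u ∈ R, z * u ∈ R) (c : ℕ)
    {u : ℕ → K} (hu : u ∈ R) : blk m W0 c u ∈ R := by
  classical
  -- multipliers
  let M : Set (ℕ → K) := {φ | ∀ v ∈ R, φ * v ∈ R}
  have hM1 : (1 : ℕ → K) ∈ M := fun v hv => by rwa [one_mul]
  have hMmul : ∀ φ ∈ M, ∀ ψ ∈ M, φ * ψ ∈ M := fun φ hφ ψ hψ v hv => by
    rw [mul_assoc]
    exact hφ _ (hψ v hv)
  have hsep : ∀ j, j < m → ¬ Rel W0 j c → ∃ φ ∈ M, (∀ i, i < m → Rel W0 i c → φ i = 1) ∧ φ j = 0 := by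
    intro j hj hjc
    unfold Rel at hjc
    push Not at hjc
    obtain ⟨z, hz, hzj⟩ := hjc
    have hne : z c - z j ≠ 0 := sub_ne_zero.mpr (Ne.symm hzj)
    refine ⟨(z c - z j)⁻¹ • (z - z j • oneF K m), ?_, ?_, ?_⟩
    · intro v hv
      rw [smul_mul_assoc, sub_mul, smul_mul_assoc]
      exact R.smul_mem _ (R.sub_mem (hmul z hz v hv) (R.smul_mem _ (hmul _ h0 v hv)))
    · intro i hi hic
      simp only [Pi.smul_apply, Pi.sub_apply, oneF, hi, if_true, smul_eq_mul, mul_one]
      rw [hic z hz]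
      exact inv_mul_cancel₀ hne
    · simp only [Pi.smul_apply, Pi.sub_apply, oneF, hj, if_true, smul_eq_mul, mul_one, sub_self,
        mul_zero]
  have hfin : ∀ J : Finset ℕ, (∀ j ∈ J, j < m ∧ ¬ Rel W0 j c) →
      ∃ φ ∈ M, (∀ i, i < m → Rel W0 i c → φ i = 1) ∧ ∀ j ∈ J, φ j = 0 := by
    intro J
    induction J using Finset.induction_on with
    | empty => exact fun _ => ⟨1, hM1, fun _ _ _ => rfl, fun j hj => absurd hj (by simp)⟩
    | insert a J ha ih =>
      intro hJ
      obtain ⟨φ, hφ, h1, h2⟩ := ih (fun j hj => hJ j (Finset.mem_insert_of_mem hj))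
      obtain ⟨ψ, hψ, h3, h4⟩ := hsep a (hJ a (Finset.mem_insert_self _ _)).1
        (hJ a (Finset.mem_insert_self _ _)).2
      refine ⟨φ * ψ, hMmul φ hφ ψ hψ, fun i hi hic => ?_, fun j hj => ?_⟩
      · rw [Pi.mul_apply, h1 i hi hic, h3 i hi hic, mul_one]
      · rw [Pi.mul_apply]
        rcases Finset.mem_insert.mp hj with rfl | hj
        · rw [h4, mul_zero]
        · rw [h2 j hj, zero_mul]
  obtain ⟨φ, hφ, h1, h2⟩ := hfin ((Finset.range m).filter fun j => ¬ Rel W0 j c) (by
    intro j hj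
    rw [Finset.mem_filter, Finset.mem_range] at hj
    exact hj)
  have h3 : φ * u = blk m W0 c u := by
    ext i
    rw [Pi.mul_apply]
    by_cases hi : i < m
    · by_cases hic : Rel W0 i c
      · rw [h1 i hi hic, one_mul, blk_of u hi hic]
      · rw [h2 i (by rw [Finset.mem_filter, Finset.mem_range]; exact ⟨hi, hic⟩), zero_mul,
          blk_of_not u (fun h => hic h.2)]
    · rw [hR u hu i (by omega), mul_zero, blk_of_not u (fun h => hi h.1)]
  rw [← h3]
  exact hφ u hu

/-- on a block the elements of `Wm` are determined up to a factor -/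
theorem blk_key [CharZero K] {m : ℕ} {W1 W0 Wm : Submodule K (ℕ → K)} (T : Tri m W1 W0 Wm) (c : ℕ)
    {u : ℕ → K} (hu : u ∈ Wm) (hb : blk m W0 c u = u) :
    ∀ i, i < m → Rel W0 i c → ∃ N : ℕ, 0 < N ∧ 2 * u i = -(lap m u c) * N := by
  intro i hi hic
  have hlap : lap m u ∈ W0 := by
    have h1 := T.brk _ T.one1 u hu
    have h2 : oneF K m * u = u := by
      ext j
      rw [Pi.mul_apply]
      by_cases hj : j < m
      · simp [oneF, hj]
      · rw [T.sm u hu j (by omega), mul_zero]
    rwa [h2] at h1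
  refine key_interval (m := m) (b := fun j => j < m ∧ Rel W0 j c) (fun j hj => hj.1)
    (fun j hj => by rw [← hb]; exact blk_of_not u hj) ?_ i ⟨hi, hic⟩
  rintro j ⟨hj, hjc⟩
  have h3 := hjc _ hlap
  rw [← h3]
  simp only [lap, hj, if_true]

/-- the radical in degree `-1` is zero -/
theorem radical_zero [CharZero K] {m : ℕ} {W1 W0 Wm R : Submodule K (ℕ → K)} (T : Tri m W1 W0 Wm)
    (hR : R ≤ Wm) (hmul : ∀ z ∈ W0, ∀ u ∈ R, z * u ∈ R)
    (horth : ∀ s ∈ W1, ∀ y ∈ R, ∑ i ∈ Finset.range m, s i * y i = 0) :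
    ∀ y ∈ R, y = 0 := by
  intro y hy
  ext c
  rcases Nat.lt_or_ge c m with hc | hc
  swap
  · exact T.sm y (hR hy) c hc
  classical
  set u := blk m W0 c y with hu
  have huR : u ∈ R := blk_mem T.one0 (fun v hv => T.sm v (hR hv)) hmul c hy
  have hbu : blk m W0 c u = u := by
    ext i
    by_cases h : i < m ∧ Rel W0 i c
    · rw [blk_of u h.1 h.2]
    · rw [blk_of_not u h, hu, blk_of_not y h]
  have hkey := blk_key T c (hR huR) hbu
  have hsum := horth _ T.one1 u huR
  have h1 : ∀ i, i < m → ∃ N : ℕ, (Rel W0 i c → 0 < N) ∧ 2 * u i = -(lap m u c) * N := by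
    intro i hi
    by_cases hic : Rel W0 i c
    · obtain ⟨N, hN, hN'⟩ := hkey i hi hic
      exact ⟨N, fun _ => hN, hN'⟩
    · refine ⟨0, fun h => absurd h hic, ?_⟩
      rw [hu, blk_of_not y (fun h => hic h.2)]
      simp
  have h2 : ∃ N : ℕ, 0 < N ∧ 2 * (∑ i ∈ Finset.range m, u i) = -(lap m u c) * N := by
    choose! N hN hN' using h1
    refine ⟨∑ i ∈ Finset.range m, N i, ?_, ?_⟩
    · apply Finset.sum_pos'
      · intro i _; exact Nat.zero_le _
      · exact ⟨c, Finset.mem_range.mpr hc, hN c hc (fun z _ => rfl)⟩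
    · rw [Finset.mul_sum, Nat.cast_sum, Finset.mul_sum]
      exact Finset.sum_congr rfl fun i hi => hN' i (Finset.mem_range.mp hi)
  obtain ⟨N, hN, hN'⟩ := h2
  have h3 : ∑ i ∈ Finset.range m, u i = 0 := by
    rw [← hsum]
    apply Finset.sum_congr rfl
    intro i hi
    simp [oneF, Finset.mem_range.mp hi]
  rw [h3, mul_zero] at hN'
  have h4 : lap m u c = 0 := by
    have hN0 : (N : K) ≠ 0 := by exact_mod_cast hN.ne'
    rcases mul_eq_zero.mp hN'.symm with h | h
    · exact neg_eq_zero.mp h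
    · exact absurd h hN0
  obtain ⟨N', -, hN''⟩ := hkey c hc (fun z _ => rfl)
  rw [h4, neg_zero, zero_mul] at hN''
  have h5 : u c = 0 := by
    rcases mul_eq_zero.mp hN'' with h | h
    · exact absurd h two_ne_zero
    · exact h
  rw [hu, blk_of y hc (fun z _ => rfl)] at h5
  exact h5

theorem lap_sub_smul (m : ℕ) (u v : ℕ → K) (a : K) :
    lap m (u - a • v) = lap m u - a • lap m v := by
  ext i
  simp only [lap, Pi.sub_apply, Pi.smul_apply, smul_eq_mul]
  split_ifs <;> ring

theorem blk_idem (m : ℕ) (W0 : Submodule K (ℕ → K)) (c : ℕ) (y : ℕ → K) :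
    blk m W0 c (blk m W0 c y) = blk m W0 c y := by
  ext i
  by_cases h : i < m ∧ Rel W0 i c
  · rw [blk_of _ h.1 h.2]
  · rw [blk_of_not _ h, blk_of_not y h]

theorem W0_le_W1 {m : ℕ} {W1 W0 Wm : Submodule K (ℕ → K)} (T : Tri m W1 W0 Wm) : W0 ≤ W1 := by
  intro z hz
  have h1 := T.mul1 z hz _ T.one1
  have h2 : z * oneF K m = z := by
    ext j
    rw [Pi.mul_apply]
    by_cases hj : j < m
    · simp [oneF, hj]
    · rw [T.s0 z hz j (by omega), zero_mul]
  rwa [h2] at h1

theorem one_mul_supp {m : ℕ} {u : ℕ → K} (hu : Supp m u) : oneF K m * u = u := by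
  ext j
  rw [Pi.mul_apply]
  by_cases hj : j < m
  · simp [oneF, hj]
  · rw [hu j (by omega), mul_zero]

theorem lap_mem {m : ℕ} {W1 W0 Wm : Submodule K (ℕ → K)} (T : Tri m W1 W0 Wm) {u : ℕ → K}
    (hu : u ∈ Wm) : lap m u ∈ W0 := by
  have h1 := T.brk _ T.one1 u hu
  rwa [one_mul_supp (T.sm u hu)] at h1

/-- the functions in `W1` are constant on the blocks of `W0` -/
theorem w1_const [CharZero K] {m : ℕ} {W1 W0 Wm : Submodule K (ℕ → K)} (T : Tri m W1 W0 Wm)
    (hnd : ∀ s ∈ W1, (∀ y ∈ Wm, ∑ i ∈ Finset.range m, s i * y i = 0) → s = 0) :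
    ∀ s ∈ W1, ∀ i, i < m → ∀ c, c < m → Rel W0 i c → s i = s c := by
  classical
  intro s hs i hi c hc hic
  set e := blk m W0 c (oneF K m) with he
  have heW : e ∈ W1 := blk_mem T.one0 T.s1 T.mul1 c T.one1
  have hec : e c = 1 := by
    rw [he, blk_of _ hc (fun z _ => rfl)]
    simp [oneF, hc]
  have hex : ∃ y ∈ Wm, ∑ i ∈ Finset.range m, e i * y i ≠ 0 := by
    by_contra hcon
    push Not at hcon
    have h1 := hnd e heW hcon
    rw [h1] at hec
    exact zero_ne_one hec
  obtain ⟨y, hy, hysum⟩ := hex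
  set u := blk m W0 c y with hu
  have huW : u ∈ Wm := blk_mem T.one0 T.sm T.mulm c hy
  have hub : blk m W0 c u = u := by rw [hu, blk_idem]
  have huey : ∀ j, e j * y j = u j := by
    intro j
    by_cases h : j < m ∧ Rel W0 j c
    · rw [he, hu, blk_of _ h.1 h.2, blk_of _ h.1 h.2]
      simp [oneF, h.1]
    · rw [he, hu, blk_of_not _ h, blk_of_not _ h, zero_mul]
  have husum : ∑ i ∈ Finset.range m, u i ≠ 0 := by
    intro h0
    apply hysum
    rw [← h0]
    exact Finset.sum_congr rfl fun j _ => huey j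
  have hcu : lap m u c ≠ 0 := by
    intro h0
    apply husum
    apply Finset.sum_eq_zero
    intro j hj
    by_cases h : j < m ∧ Rel W0 j c
    · obtain ⟨N, -, hN⟩ := blk_key T c huW hub j h.1 h.2
      rw [h0, neg_zero, zero_mul] at hN
      rcases mul_eq_zero.mp hN with h | h
      · exact absurd h two_ne_zero
      · exact h
    · rw [hu, blk_of_not _ h]
  set l := (∑ i ∈ Finset.range m, s i * u i) / (∑ i ∈ Finset.range m, u i) with hl
  set s' := blk m W0 c s - l • e with hs'
  have hs'W : s' ∈ W1 := W1.sub_mem (blk_mem T.one0 T.s1 T.mul1 c hs) (W1.smul_mem _ heW)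
  have hs'0 : s' = 0 := by
    apply hnd s' hs'W
    intro y' hy'
    set u' := blk m W0 c y' with hu'
    have hu'W : u' ∈ Wm := blk_mem T.one0 T.sm T.mulm c hy'
    have hprop : ∀ j, u' j = (lap m u' c / lap m u c) * u j := by
      intro j
      set v := u' - (lap m u' c / lap m u c) • u with hv
      have hvW : v ∈ Wm := Wm.sub_mem hu'W (Wm.smul_mem _ huW)
      have hvb : blk m W0 c v = v := by
        ext k
        by_cases h : k < m ∧ Rel W0 k c
        · rw [blk_of _ h.1 h.2]
        · rw [blk_of_not _ h, hv, Pi.sub_apply, Pi.smul_apply, hu', blk_of_not _ h, hu,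
            blk_of_not _ h]
          simp
      have hvc : lap m v c = 0 := by
        rw [hv, lap_sub_smul, Pi.sub_apply, Pi.smul_apply, smul_eq_mul, div_mul_cancel₀ _ hcu,
          sub_self]
      have hvj : v j = 0 := by
        by_cases h : j < m ∧ Rel W0 j c
        · obtain ⟨N, -, hN⟩ := blk_key T c hvW hvb j h.1 h.2
          rw [hvc, neg_zero, zero_mul] at hN
          rcases mul_eq_zero.mp hN with h | h
          · exact absurd h two_ne_zero
          · exact h
        · rw [← hvb, blk_of_not _ h]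
      rw [hv, Pi.sub_apply, Pi.smul_apply, smul_eq_mul, sub_eq_zero] at hvj
      exact hvj
    have h1 : ∀ j, s' j * y' j = (lap m u' c / lap m u c) * (s j * u j - l * u j) := by
      intro j
      by_cases h : j < m ∧ Rel W0 j c
      · have h2 : y' j = u' j := by rw [hu', blk_of _ h.1 h.2]
        rw [h2, hprop j, hs', Pi.sub_apply, Pi.smul_apply, blk_of _ h.1 h.2, he, blk_of _ h.1 h.2]
        simp only [oneF, h.1, if_true, smul_eq_mul]
        ring
      · have h2 : u j = 0 := by rw [hu, blk_of_not _ h]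
        rw [h2, hs', Pi.sub_apply, Pi.smul_apply, blk_of_not _ h, he, blk_of_not _ h]
        simp
    rw [Finset.sum_congr rfl fun j _ => h1 j, ← Finset.mul_sum, Finset.sum_sub_distrib,
      ← Finset.mul_sum, hl, div_mul_cancel₀ _ husum, sub_self, mul_zero]
  have h1 : ∀ j, j < m → Rel W0 j c → s j = l := by
    intro j hj hjc
    have h2 := congrFun hs'0 j
    rw [hs', Pi.sub_apply, Pi.smul_apply, blk_of _ hj hjc, he, blk_of _ hj hjc] at h2
    simp only [oneF, hj, if_true, smul_eq_mul, mul_one, Pi.zero_apply] at h2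
    exact sub_eq_zero.mp h2
  rw [h1 i hi hic, h1 c hc (fun z _ => rfl)]

/-- the pairing -/
noncomputable def prg (K : Type) [Field K] (m : ℕ) : (ℕ → K) →ₗ[K] (ℕ → K) →ₗ[K] K :=
  LinearMap.mk₂ K (fun s y => ∑ i ∈ Finset.range m, s i * y i)
    (fun s s' y => by simp only [Pi.add_apply, add_mul, Finset.sum_add_distrib])
    (fun a s y => by simp only [Pi.smul_apply, smul_eq_mul, mul_assoc, Finset.mul_sum])
    (fun s y y' => by simp only [Pi.add_apply, mul_add, Finset.sum_add_distrib])
    (fun a s y => by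
      simp only [Pi.smul_apply, smul_eq_mul, Finset.mul_sum]
      exact Finset.sum_congr rfl fun i _ => by ring)

theorem prg_apply (m : ℕ) (s y : ℕ → K) : prg K m s y = ∑ i ∈ Finset.range m, s i * y i := rfl

theorem fin_of_supp {m : ℕ} (W : Submodule K (ℕ → K)) (h : ∀ u ∈ W, Supp m u) :
    FiniteDimensional K W := by
  let f : W →ₗ[K] (Fin m → K) :=
    { toFun := fun u i => (u : ℕ → K) i
      map_add' := fun u v => rfl
      map_smul' := fun a u => rfl }
  apply FiniteDimensional.of_injective f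
  intro u v huv
  apply Subtype.ext
  ext i
  rcases Nat.lt_or_ge i m with hi | hi
  · exact congrFun huv ⟨i, hi⟩
  · rw [h u u.2 i hi, h v v.2 i hi]

/-- the Laplacian maps `Wm` onto `W1` -/
theorem lap_surj [CharZero K] {m : ℕ} {W1 W0 Wm : Submodule K (ℕ → K)} (T : Tri m W1 W0 Wm)
    (hnd1 : ∀ s ∈ W1, (∀ y ∈ Wm, ∑ i ∈ Finset.range m, s i * y i = 0) → s = 0)
    (hndm : ∀ y ∈ Wm, (∀ s ∈ W1, ∑ i ∈ Finset.range m, s i * y i = 0) → y = 0) :
    ∀ s ∈ W1, ∃ y ∈ Wm, lap m y = s := by
  have f1 : FiniteDimensional K W1 := fin_of_supp W1 T.s1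
  have fm : FiniteDimensional K Wm := fin_of_supp Wm T.sm
  let P1 : W1 →ₗ[K] (Wm →ₗ[K] K) := (prg K m).compl₁₂ W1.subtype Wm.subtype
  let P2 : Wm →ₗ[K] (W1 →ₗ[K] K) := (prg K m).flip.compl₁₂ Wm.subtype W1.subtype
  have i1 : Function.Injective P1 := by
    rw [← LinearMap.ker_eq_bot, LinearMap.ker_eq_bot']
    intro s hs
    apply Subtype.ext
    apply hnd1 s s.2
    intro y hy
    exact LinearMap.congr_fun hs ⟨y, hy⟩
  have i2 : Function.Injective P2 := by
    rw [← LinearMap.ker_eq_bot, LinearMap.ker_eq_bot']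
    intro y hy
    apply Subtype.ext
    apply hndm y y.2
    intro s hs
    exact LinearMap.congr_fun hy ⟨s, hs⟩
  have e1 : Module.finrank K W1 ≤ Module.finrank K Wm := by
    rw [← Subspace.dual_finrank_eq (K := K) (V := Wm)]
    exact LinearMap.finrank_le_finrank_of_injective i1
  have e2 : Module.finrank K Wm ≤ Module.finrank K W1 := by
    rw [← Subspace.dual_finrank_eq (K := K) (V := W1)]
    exact LinearMap.finrank_le_finrank_of_injective i2
  let L : Wm →ₗ[K] W1 :=
    { toFun := fun u => ⟨lap m u, W0_le_W1 T (lap_mem T u.2)⟩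
      map_add' := fun u v => by
        apply Subtype.ext
        ext i
        simp only [lap, Submodule.coe_add, Pi.add_apply]
        split_ifs <;> ring
      map_smul' := fun a u => by
        apply Subtype.ext
        ext i
        simp only [lap, Submodule.coe_smul, Pi.smul_apply, smul_eq_mul, RingHom.id_apply]
        split_ifs <;> ring }
  have iL : Function.Injective L := by
    rw [← LinearMap.ker_eq_bot, LinearMap.ker_eq_bot']
    intro u hu
    apply Subtype.ext
    ext i
    exact lap_inj (T.sm u u.2) (fun j _ => congrFun (congrArg Subtype.val hu) j) i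
  have sL : Function.Surjective L :=
    (LinearMap.injective_iff_surjective_of_finrank_eq_finrank (le_antisymm e2 e1)).mp iL
  intro s hs
  obtain ⟨y, hy⟩ := sL ⟨s, hs⟩
  exact ⟨y, y.2, congrArg Subtype.val hy⟩

theorem lap_wF [CharZero K] (m : ℕ) : lap m (wF K m) = (-2 : K) • oneF K m := by
  ext i
  simp only [lap, wF, oneF, Pi.smul_apply, smul_eq_mul]
  by_cases hi : i < m
  · rw [if_pos hi, if_pos hi, if_pos hi]
    rcases i with _ | i
    · rw [if_pos rfl]
      by_cases h1 : 0 + 1 < m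
      · rw [if_pos h1]; push_cast; ring
      · rw [if_neg h1]
        have : m = 1 := by omega
        subst this
        push_cast; ring
    · rw [if_neg (Nat.succ_ne_zero i), Nat.add_sub_cancel, if_pos (show i < m by omega)]
      by_cases h1 : i + 1 + 1 < m
      · rw [if_pos h1]; push_cast; ring
      · rw [if_neg h1]
        have : m = i + 2 := by omega
        subst this
        push_cast; ring
  · rw [if_neg hi, if_neg hi, mul_zero]

theorem w_mem [CharZero K] {m : ℕ} {W1 W0 Wm : Submodule K (ℕ → K)} (T : Tri m W1 W0 Wm)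
    (hnd1 : ∀ s ∈ W1, (∀ y ∈ Wm, ∑ i ∈ Finset.range m, s i * y i = 0) → s = 0)
    (hndm : ∀ y ∈ Wm, (∀ s ∈ W1, ∑ i ∈ Finset.range m, s i * y i = 0) → y = 0) :
    W1 ≤ W0 ∧ wF K m ∈ Wm := by
  have hsurj := lap_surj T hnd1 hndm
  constructor
  · intro s hs
    obtain ⟨y, hy, hys⟩ := hsurj s hs
    rw [← hys]
    exact lap_mem T hy
  · obtain ⟨y, hy, hys⟩ := hsurj ((-2 : K) • oneF K m) (W1.smul_mem _ T.one1)
    have h1 : lap m (y - (1 : K) • wF K m) = 0 := by
      rw [lap_sub_smul, hys, lap_wF, one_smul, sub_self]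
    have h2 := lap_inj (m := m) (u := y - (1 : K) • wF K m) (fun i hi => by
      rw [Pi.sub_apply, Pi.smul_apply, T.sm y hy i hi]
      simp [wF, not_lt.mpr hi]) (fun i _ => congrFun h1 i)
    have h3 : y = wF K m := by
      ext i
      have h4 := h2 i
      rw [Pi.sub_apply, one_smul, sub_eq_zero] at h4
      exact h4
    rw [← h3]
    exact hy

end MT
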