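import Pool.Agent.Helper43.MT.LieTri

/-!
# Lie algebras of matrices which contain the standard regular nilpotent matrix
-/

set_option autoImplicit false

namespace MT

variable {K : Type} [Field K]

/-- square matrices of size `m + 1` -/
abbrev Mt (K : Type) (m : ℕ) : Type := Matrix (Fin (m + 1)) (Fin (m + 1)) K

/-- homogeneous matrix of degree `k` -/
def up (m k : ℕ) (a : ℕ → K) : Mt K m :=
  Matrix.of fun i j => if (i : ℕ) = j + k then a j else 0

/-- homogeneous matrix of degree `-k` -/
def dn (m k : ℕ) (a : ℕ → K) : Mt K m :=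
  Matrix.of fun i j => if (j : ℕ) = i + k then a i else 0

/-- the part of degree `k` -/
def upf {m : ℕ} (k : ℕ) (X : Mt K m) : ℕ → K :=
  fun j => if h : j + k < m + 1 then X ⟨j + k, h⟩ ⟨j, by omega⟩ else 0

/-- the part of degree `-k` -/
def dnf {m : ℕ} (k : ℕ) (X : Mt K m) : ℕ → K :=
  fun i => if h : i + k < m + 1 then X ⟨i, by omega⟩ ⟨i + k, h⟩ else 0

theorem up_mul {m k : ℕ} (a : ℕ → K) (A : Mt K m) (i j : Fin (m + 1)) :
    (up m k a * A) i j = if h : k ≤ (i : ℕ) then
      a (i - k) * A ⟨i - k, by have := i.2; omega⟩ j else 0 := by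
  rw [Matrix.mul_apply]
  by_cases h : k ≤ (i : ℕ)
  · rw [dif_pos h, Finset.sum_eq_single (⟨i - k, by have := i.2; omega⟩ : Fin (m + 1))]
    · simp only [up, Matrix.of_apply]
      rw [if_pos (by omega)]
    · intro b _ hb
      simp only [up, Matrix.of_apply]
      rw [if_neg, zero_mul]
      intro hc
      apply hb
      apply Fin.ext
      simp only
      omega
    · intro hb
      exact absurd (Finset.mem_univ _) hb
  · rw [dif_neg h]
    apply Finset.sum_eq_zero
    intro b _
    simp only [up, Matrix.of_apply]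
    rw [if_neg (by omega), zero_mul]

theorem mul_up {m k : ℕ} (a : ℕ → K) (A : Mt K m) (i j : Fin (m + 1)) :
    (A * up m k a) i j = if h : (j : ℕ) + k < m + 1 then A i ⟨j + k, h⟩ * a j else 0 := by
  rw [Matrix.mul_apply]
  by_cases h : (j : ℕ) + k < m + 1
  · rw [dif_pos h, Finset.sum_eq_single (⟨j + k, h⟩ : Fin (m + 1))]
    · simp only [up, Matrix.of_apply, if_true]
    · intro b _ hb
      simp only [up, Matrix.of_apply]
      rw [if_neg, mul_zero]
      intro hc
      apply hb
      apply Fin.ext
      exact hc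
    · intro hb
      exact absurd (Finset.mem_univ _) hb
  · rw [dif_neg h]
    apply Finset.sum_eq_zero
    intro b _
    simp only [up, Matrix.of_apply]
    rw [if_neg (by have := b.2; omega), mul_zero]

theorem dn_mul {m k : ℕ} (a : ℕ → K) (A : Mt K m) (i j : Fin (m + 1)) :
    (dn m k a * A) i j = if h : (i : ℕ) + k < m + 1 then a i * A ⟨i + k, h⟩ j else 0 := by
  rw [Matrix.mul_apply]
  by_cases h : (i : ℕ) + k < m + 1
  · rw [dif_pos h, Finset.sum_eq_single (⟨i + k, h⟩ : Fin (m + 1))]
    · simp only [dn, Matrix.of_apply, if_true]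
    · intro b _ hb
      simp only [dn, Matrix.of_apply]
      rw [if_neg, zero_mul]
      intro hc
      apply hb
      apply Fin.ext
      exact hc
    · intro hb
      exact absurd (Finset.mem_univ _) hb
  · rw [dif_neg h]
    apply Finset.sum_eq_zero
    intro b _
    simp only [dn, Matrix.of_apply]
    rw [if_neg (by have := b.2; omega), zero_mul]

theorem mul_dn {m k : ℕ} (a : ℕ → K) (A : Mt K m) (i j : Fin (m + 1)) :
    (A * dn m k a) i j = if h : k ≤ (j : ℕ) then
      A i ⟨j - k, by have := j.2; omega⟩ * a (j - k) else 0 := by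
  rw [Matrix.mul_apply]
  by_cases h : k ≤ (j : ℕ)
  · rw [dif_pos h, Finset.sum_eq_single (⟨j - k, by have := j.2; omega⟩ : Fin (m + 1))]
    · simp only [dn, Matrix.of_apply]
      rw [if_pos (by omega)]
    · intro b _ hb
      simp only [dn, Matrix.of_apply]
      rw [if_neg, mul_zero]
      intro hc
      apply hb
      apply Fin.ext
      simp only
      omega
    · intro hb
      exact absurd (Finset.mem_univ _) hb
  · rw [dif_neg h]
    apply Finset.sum_eq_zero
    intro b _
    simp only [dn, Matrix.of_apply]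
    rw [if_neg (by omega), mul_zero]

/-- the bracket -/
def bk {m : ℕ} (X Y : Mt K m) : Mt K m := X * Y - Y * X

theorem bk_up_dn {m : ℕ} {s y : ℕ → K} (hs : Supp m s) :
    bk (up m 1 s) (dn m 1 y) =
      up m 0 (fun i => (if i = 0 then 0 else s (i - 1) * y (i - 1)) - s i * y i) := by
  ext i j
  rw [bk, Matrix.sub_apply, up_mul, dn_mul]
  simp only [up, dn, Matrix.of_apply]
  have hi := i.2
  have hj := j.2
  by_cases hij : (i : ℕ) = j
  · have hji : (j : ℕ) = i := hij.symm
    rw [if_pos (by omega : (i : ℕ) = j + 0)]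
    by_cases h0 : (i : ℕ) = 0
    · rw [dif_neg (by omega), if_pos (by omega)]
      by_cases h1 : (i : ℕ) + 1 < m + 1
      · rw [dif_pos h1, if_pos (by omega), hij]; ring
      · rw [dif_neg h1, hs j (by omega)]; ring
    · rw [dif_pos (show 1 ≤ (i : ℕ) by omega), if_neg (show ¬ (j : ℕ) = 0 by omega),
        if_pos (show (j : ℕ) = (i : ℕ) - 1 + 1 by omega)]
      by_cases h1 : (i : ℕ) + 1 < m + 1
      · rw [dif_pos h1, if_pos (show (i : ℕ) + 1 = (j : ℕ) + 1 by omega), hij]; ring
      · rw [dif_neg h1, hs j (by omega), hij]; ring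
  · rw [if_neg (by omega : ¬ (i : ℕ) = j + 0)]
    split_ifs with h1 h2 h3 h4 h5 h6 <;> first | omega | simp

theorem bk_up0_up1 {m : ℕ} (D s : ℕ → K) :
    bk (up m 0 D) (up m 1 s) = up m 1 (fun i => (D (i + 1) - D i) * s i) := by
  ext i j
  rw [bk, Matrix.sub_apply, up_mul, mul_up]
  simp only [up, Matrix.of_apply]
  have hi := i.2
  have hj := j.2
  rw [dif_pos (by omega), dif_pos (by omega)]
  simp only [Nat.sub_zero, Nat.add_zero]
  by_cases hij : (i : ℕ) = j + 1
  · rw [if_pos hij, if_pos hij, hij]; ring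
  · rw [if_neg hij, if_neg hij]; ring

theorem bk_up0_dn1 {m : ℕ} (D y : ℕ → K) :
    bk (up m 0 D) (dn m 1 y) = dn m 1 (fun i => (D i - D (i + 1)) * y i) := by
  ext i j
  rw [bk, Matrix.sub_apply, up_mul, mul_up]
  simp only [dn, Matrix.of_apply]
  have hi := i.2
  have hj := j.2
  rw [dif_pos (by omega), dif_pos (by omega)]
  simp only [Nat.sub_zero, Nat.add_zero]
  by_cases hij : (j : ℕ) = i + 1
  · rw [if_pos hij, if_pos hij, hij]; ring
  · rw [if_neg hij, if_neg hij]; ring

/-- the standard regular nilpotent matrix -/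
def eM (K : Type) [Field K] (m : ℕ) : Mt K m := up m 1 (fun _ => 1)

theorem bk_e_up {m k : ℕ} (a : ℕ → K) :
    bk (eM K m) (up m k a) = up m (k + 1) (fun i => a i - a (i + 1)) := by
  ext i j
  rw [bk, eM, Matrix.sub_apply, up_mul, mul_up]
  simp only [up, Matrix.of_apply]
  have hi := i.2
  have hj := j.2
  by_cases hij : (i : ℕ) = j + (k + 1)
  · rw [if_pos hij, dif_pos (by omega), dif_pos (by omega), if_pos (by omega), if_pos (by omega)]
    ring
  · rw [if_neg hij]
    split_ifs with h1 h2 h3 h4 h5 h6 <;> first | omega | simp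

theorem bk_e_dn {m k : ℕ} (a : ℕ → K) :
    bk (eM K m) (dn m (k + 1) a) =
      dn m k (fun i => (if i = 0 then 0 else a (i - 1)) - (if i + k + 1 < m + 1 then a i else 0)) := by
  ext i j
  rw [bk, eM, Matrix.sub_apply, up_mul, mul_up]
  simp only [dn, Matrix.of_apply]
  have hi := i.2
  have hj := j.2
  by_cases hij : (j : ℕ) = i + k
  · rw [if_pos hij]
    by_cases h0 : (i : ℕ) = 0
    · rw [dif_neg (by omega), if_pos h0]
      by_cases h1 : (j : ℕ) + 1 < m + 1
      · rw [dif_pos h1, if_pos (by omega), if_pos (by omega)]; ring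
      · rw [dif_neg h1, if_neg (by omega)]
    · rw [dif_pos (by omega), if_neg h0, if_pos (by omega)]
      by_cases h1 : (j : ℕ) + 1 < m + 1
      · rw [dif_pos h1, if_pos (by omega), if_pos (by omega)]; ring
      · rw [dif_neg h1, if_neg (by omega)]; ring
  · rw [if_neg hij]
    split_ifs with h1 h2 h3 h4 h5 h6 <;> first | omega | simp

theorem trace_up_mul {m k : ℕ} (a : ℕ → K) (Y : Mt K m) :
    (up m k a * Y).trace = ∑ j ∈ Finset.range (m + 1), a j * dnf k Y j := by
  rw [Matrix.trace_mul_comm, Matrix.trace]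
  simp only [Matrix.diag_apply, mul_up]
  rw [Finset.sum_range]
  apply Finset.sum_congr rfl
  intro j _
  simp only [dnf]
  split_ifs with h
  · ring
  · ring

theorem trace_dn_mul {m k : ℕ} (a : ℕ → K) (Y : Mt K m) :
    (dn m k a * Y).trace = ∑ j ∈ Finset.range (m + 1), a j * upf k Y j := by
  rw [Matrix.trace]
  simp only [Matrix.diag_apply, dn_mul]
  rw [Finset.sum_range]
  apply Finset.sum_congr rfl
  intro j _
  simp only [upf]
  split_ifs with h
  · ring
  · ring

theorem decomp {m : ℕ} (X : Mt K m) :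
    X = ∑ k ∈ Finset.range (m + 1), up m k (upf k X) +
      ∑ k ∈ Finset.range (m + 1), dn m (k + 1) (dnf (k + 1) X) := by
  ext i j
  have hi := i.2
  have hj := j.2
  rw [Matrix.add_apply, Matrix.sum_apply, Matrix.sum_apply]
  rcases Nat.lt_or_ge (i : ℕ) j with h | h
  · rw [Finset.sum_eq_zero, Finset.sum_eq_single ((j : ℕ) - i - 1), zero_add]
    · simp only [dn, dnf, Matrix.of_apply]
      rw [if_pos (by omega), dif_pos (by omega)]
      congr 1
      apply Fin.ext
      simp only
      omega
    · intro k _ hk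
      simp only [dn, Matrix.of_apply]
      rw [if_neg (by omega)]
    · intro hk
      exact absurd (Finset.mem_range.mpr (by omega)) hk
    · intro k _
      simp only [up, Matrix.of_apply]
      rw [if_neg (by omega)]
  · rw [Finset.sum_eq_single ((i : ℕ) - j), Finset.sum_eq_zero, add_zero]
    · simp only [up, upf, Matrix.of_apply]
      rw [if_pos (by omega), dif_pos (by omega)]
      congr 1
      apply Fin.ext
      simp only
      omega
    · intro k _
      simp only [dn, Matrix.of_apply]
      rw [if_neg (by omega)]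
    · intro k _ hk
      simp only [up, Matrix.of_apply]
      rw [if_neg (by omega)]
    · intro hk
      exact absurd (Finset.mem_range.mpr (by omega)) hk

end MT
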