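import Mathlib

/-!
# Equitable partitions of the weighted path
-/

set_option autoImplicit false

namespace MT

/-- the weight -/
def wZ (m : ℕ) (i : ℕ) : ℤ := ((i : ℤ) + 1) * (m - i)

/-- the number of the partition lemma -/
noncomputable def nZ (m : ℕ) (r : ℕ → ℕ → Prop) (c i : ℕ) : ℤ := by
  classical
  exact (if 1 ≤ i ∧ r (i - 1) c then wZ m (i - 1) else 0)
    + (if i + 1 < m ∧ r (i + 1) c then wZ m (i + 1) else 0) - 2 * (if r i c then wZ m i else 0)

theorem wZ_pos {m i : ℕ} (h : i < m) : 0 < wZ m i := by
  unfold wZ
  have h1 : (i : ℤ) < m := by exact_mod_cast h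
  have h2 : (0 : ℤ) ≤ i := by positivity
  apply mul_pos <;> linarith

theorem partition {m : ℕ} {r : ℕ → ℕ → Prop} (refl : ∀ i, r i i) (symm : ∀ i j, r i j → r j i)
    (trans : ∀ i j k, r i j → r j k → r i k) (pal : ∀ i, i < m → r i (m - 1 - i))
    (hN : ∀ c, c < m → ∀ i, i < m → ∀ j, j < m → r i j → nZ m r c i = nZ m r c j) :
    (∀ i, i < m → r i 0) ∨ m = 6 ∨ ∀ i, i < m → ∀ k, k < m → r i k → i = k ∨ i = m - 1 - k := by
  classical
  rcases Nat.lt_or_ge m 2 with hm | hm
  · left
    intro i hi
    have : i = 0 := by omega
    subst this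
    exact refl 0
  by_cases h10 : r 1 0
  · -- everything is in the block of 0
    left
    intro i
    induction i with
    | zero => exact fun _ => refl 0
    | succ i ih =>
      intro hi
      by_contra hcon
      have h1 := ih (by omega)
      have h2 := hN (i + 1) hi i (by omega) 0 (by omega) h1
      have h3 : nZ m r (i + 1) 0 = 0 := by
        unfold nZ
        rw [if_neg (by omega), if_neg (fun h => hcon (trans _ _ _ (symm _ _ h.2) h10)),
          if_neg (fun h => hcon (symm _ _ h))]
        simp
      have h4 : ¬ r i (i + 1) := fun h => hcon (trans _ _ _ (symm _ _ h) h1)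
      have h5 : 0 < wZ m (i + 1) := wZ_pos hi
      have h6 : 0 < nZ m r (i + 1) i := by
        unfold nZ
        rw [if_pos (show i + 1 < m ∧ r (i + 1) (i + 1) from ⟨hi, refl _⟩), if_neg h4]
        split_ifs with h
        · have : 0 < wZ m (i - 1) := wZ_pos (by omega)
          linarith
        · linarith
      rw [h2, h3] at h6
      exact lt_irrefl _ h6
  right
  have h01 : ¬ r 0 1 := fun h => h10 (symm _ _ h)
  -- the numbers at 0
  have n10 : nZ m r 1 0 = wZ m 1 := by
    unfold nZ
    rw [if_neg (by omega), if_pos (⟨by omega, refl _⟩ : 0 + 1 < m ∧ r (0 + 1) 1), if_neg h01]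
    simp
  have n00 : nZ m r 0 0 = -2 * wZ m 0 := by
    unfold nZ
    rw [if_neg (by omega), if_neg (fun h => h10 h.2), if_pos (refl 0)]
    ring
  -- elements of the block of 0
  have hC : ∀ i, i < m → r i 0 → i = 0 ∨ i = m - 1 ∨ (i = 2 ∧ r 3 0 ∧ 3 < m) ∨
      (i = m - 3 ∧ 3 < m ∧ ¬ r (i - 1) 1) := by
    intro i hi hi0
    by_contra hcon
    push Not at hcon
    obtain ⟨hi0', him, hi2, him3⟩ := hcon
    have hip : i + 1 < m := by omega
    have h1 := hN 1 (by omega) i hi 0 (by omega) hi0
    have h0 := hN 0 (by omega) i hi 0 (by omega) hi0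
    rw [n10] at h1
    rw [n00] at h0
    have hi1 : ¬ r i 1 := fun h => h01 (trans _ _ _ (symm _ _ hi0) h)
    unfold nZ at h1 h0
    rw [if_neg hi1, mul_zero, sub_zero] at h1
    rw [if_pos hi0] at h0
    have hw : ∀ j : ℕ, wZ m j = ((j : ℤ) + 1) * (m - j) := fun j => rfl
    have hcast : ((i - 1 : ℕ) : ℤ) = (i : ℤ) - 1 := by
      push_cast [show 1 ≤ i by omega]; ring
    have hiZ : (1 : ℤ) ≤ i := by exact_mod_cast (show 1 ≤ i by omega)
    have hiZ' : (i : ℤ) + 2 ≤ m := by exact_mod_cast (show i + 2 ≤ m by omega)
    have hwi : wZ m i > m := by rw [hw]; nlinarith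
    have hsum : wZ m (i - 1) + wZ m (i + 1) = 2 * wZ m i - 2 := by
      rw [hw, hw, hw, hcast]; push_cast; ring
    have hw1 : wZ m 1 = 2 * (m : ℤ) - 2 := by rw [hw]; push_cast; ring
    have hw0 : wZ m 0 = (m : ℤ) := by rw [hw]; push_cast; ring
    by_cases hl : r (i - 1) 1
    · have hl' : ¬ r (i - 1) 0 := fun h => h10 (trans _ _ _ (symm _ _ hl) h)
      by_cases hr : r (i + 1) 1
      · rw [if_pos ⟨by omega, hl⟩, if_pos ⟨hip, hr⟩, hw1] at h1
        linarith
      · rw [if_pos ⟨by omega, hl⟩, if_neg (fun h => hr h.2), add_zero] at h1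
        -- w (i-1) = w 1
        have h3 : ((i : ℤ) - 2) * ((m : ℤ) - i - 1) = 0 := by
          rw [hw1, hw, hcast] at h1
          linarith [h1]
        rcases mul_eq_zero.mp h3 with h4 | h4
        · have h5 : i = 2 := by omega
          subst h5
          have h6 : ¬ r 3 0 := fun h => absurd (hi2 rfl h) (by omega)
          rw [if_neg (fun h => hl' h.2), if_neg (fun h => h6 h.2), hw0, hw] at h0
          push_cast at h0
          have h7 : (m : ℤ) = 3 := by linarith
          omega
        · omega
    · by_cases hr : r (i + 1) 1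
      · rw [if_neg (fun h => hl h.2), if_pos ⟨hip, hr⟩, zero_add] at h1
        have h3 : (i : ℤ) * ((m : ℤ) - 3 - i) = 0 := by
          rw [hw1, hw] at h1
          push_cast at h1
          linarith [h1]
        rcases mul_eq_zero.mp h3 with h4 | h4
        · omega
        · exact hl (him3 (by omega) (by omega))
      · rw [if_neg (fun h => hl h.2), if_neg (fun h => hr h.2), hw1] at h1
        have : (2 : ℤ) ≤ m := by exact_mod_cast hm
        linarith
  -- 2 is not in the block of 0 unless m = 6
  by_cases hm6 : m = 6
  · left; exact hm6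
  right
  have h2C : ∀ i, i < m → r i 0 → i = 0 ∨ i = m - 1 := by
    have key : ¬ (2 < m - 1 ∧ r 2 0 ∧ r 3 0) := by
      rintro ⟨h2m, h20, h30⟩
      have h3m : 3 < m := by omega
      rcases hC 3 h3m h30 with h | h | h | h
      · omega
      · -- m = 4
        have hm4 : m = 4 := by omega
        subst hm4
        have h1 := hN 1 (by omega) 3 (by omega) 0 (by omega) h30
        rw [n10] at h1
        unfold nZ at h1
        rw [if_neg (fun h => h01 (trans _ _ _ (symm _ _ h20) h.2)), if_neg (by omega),
          if_neg (fun h => h01 (trans _ _ _ (symm _ _ h30) h))] at h1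
        unfold wZ at h1
        norm_num at h1
      · exact absurd h.1 (by omega)
      · exact absurd h.1 (by omega)
    intro i hi hi0
    rcases hC i hi hi0 with h | h | h | h
    · exact Or.inl h
    · exact Or.inr h
    · obtain ⟨h2, h3, h4⟩ := h
      subst h2
      by_cases h5 : 2 < m - 1
      · exact absurd ⟨h5, hi0, h3⟩ key
      · right; omega
    · obtain ⟨h2, h4, -⟩ := h
      have h5 : r 2 0 := by
        have h6 := pal i hi
        have h7 : m - 1 - i = 2 := by omega
        rw [h7] at h6
        exact trans _ _ _ (symm _ _ h6) hi0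
      rcases hC 2 (by omega) h5 with h | h | h | h
      · omega
      · omega
      · exact absurd ⟨by omega, h5, h.2.1⟩ key
      · exact absurd (refl 1) h.2.2
  -- induction
  have hind : ∀ k, k < m → k ≤ m - 1 - k → ∀ i, i < m → r i k → i = k ∨ i = m - 1 - k := by
    intro k
    induction k using Nat.strong_induction_on with
    | _ k ih =>
      intro hk hk2 i hi hik
      rcases Nat.eq_zero_or_pos k with hk0 | hk0
      · subst hk0
        rcases h2C i hi hik with h | h
        · exact Or.inl h
        · right; omega
      by_contra hcon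
      push Not at hcon
      obtain ⟨hne1, hne2⟩ := hcon
      have hlow : k < i := by
        by_contra hlt
        have hlt' : i < k := by omega
        rcases ih i hlt' (by omega) (by omega) k hk (symm _ _ hik) with h | h <;> omega
      have hhigh : i < m - 1 - k := by
        by_contra hlt
        have hlt' : m - 1 - i < k := by omega
        have h1 := pal i hi
        have h2 := trans _ _ _ (symm _ _ hik) h1
        rcases ih (m - 1 - i) hlt' (by omega) (by omega) k hk h2 with h | h <;> omega
      have ihp := ih (k - 1) (by omega) (by omega) (by omega)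
      have hkk : ¬ r k (k - 1) := by
        intro h
        rcases ihp k hk h with h | h <;> omega
      have h1 := hN (k - 1) (by omega) i hi k hk hik
      have h2 : 0 < nZ m r (k - 1) k := by
        have h3 : 0 < wZ m (k - 1) := wZ_pos (by omega)
        unfold nZ
        rw [if_pos ⟨by omega, refl _⟩, if_neg hkk]
        split_ifs with h
        · have : 0 < wZ m (k + 1) := wZ_pos h.1
          linarith
        · linarith
      have h3 : nZ m r (k - 1) i = 0 := by
        unfold nZ
        rw [if_neg (fun h => by
            rcases ihp (i - 1) (by omega) h.2 with h' | h' <;> omega),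
          if_neg (fun h => by
            rcases ihp (i + 1) h.1 h.2 with h' | h' <;> omega),
          if_neg (fun h => hkk (trans _ _ _ (symm _ _ hik) h))]
        simp
      rw [h1] at h3
      rw [h3] at h2
      exact lt_irrefl _ h2
  intro i hi k hk hik
  by_cases h : k ≤ m - 1 - k
  · exact hind k hk h i hi hik
  · have h1 := hind (m - 1 - k) (by omega) (by omega) i hi (trans _ _ _ hik (pal k hk))
    rcases h1 with h1 | h1
    · exact Or.inr h1
    · left; omega

end MT
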