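import Pool.Agent.Helper43.MT.LieMat

/-!
# The trace form of an irreducible Lie algebra with a regular nilpotent element
-/

set_option autoImplicit false

namespace MT

variable {K : Type} [Field K]

/-- the hypotheses in the standard basis -/
structure Std (m : ℕ) (g : Submodule K (Mt K m)) : Prop where
  br : ∀ X ∈ g, ∀ Y ∈ g, bk X Y ∈ g
  he : eM K m ∈ g
  hx : ∃ a : K, up m 0 (fun i => a + i) ∈ g
  irr : ∀ U : Submodule K (Fin (m + 1) → K), (∀ X ∈ g, ∀ v ∈ U, X.mulVec v ∈ U) → U = ⊥ ∨ U = ⊤

theorem bk_x {m : ℕ} (a : K) (X : Mt K m) (i j : Fin (m + 1)) :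
    bk (up m 0 (fun i => a + i)) X i j = (((i : ℕ) : K) - ((j : ℕ) : K)) * X i j := by
  rw [bk, Matrix.sub_apply, up_mul, mul_up]
  have hi := i.2
  have hj := j.2
  rw [dif_pos (by omega), dif_pos (by omega)]
  simp only [Nat.sub_zero, Nat.add_zero]
  ring

/-- polynomials in `ad x` -/
theorem poly_mem {m : ℕ} {g : Submodule K (Mt K m)} {a : K}
    (h : ∀ X ∈ g, bk (up m 0 (fun i => a + i)) X ∈ g) (p : Polynomial K) :
    ∀ X ∈ g, (Matrix.of fun i j => p.eval (((i : ℕ) : K) - ((j : ℕ) : K)) * X i j : Mt K m) ∈ g := by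
  induction p using Polynomial.induction_on' with
  | add p q hp hq =>
    intro X hX
    have h1 := g.add_mem (hp X hX) (hq X hX)
    convert h1 using 1
    ext i j
    simp only [Matrix.of_apply, Matrix.add_apply, Polynomial.eval_add]
    ring
  | monomial n c =>
    induction n with
    | zero =>
      intro X hX
      have h1 := g.smul_mem c hX
      convert h1 using 1
      ext i j
      simp only [Matrix.of_apply, Matrix.smul_apply, smul_eq_mul, Polynomial.eval_monomial,
        pow_zero, mul_one]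
    | succ n ih =>
      intro X hX
      have h1 := h _ (ih X hX)
      convert h1 using 1
      ext i j
      rw [bk_x]
      simp only [Matrix.of_apply, Polynomial.eval_monomial, pow_succ]
      ring

theorem proj_mem [CharZero K] {m : ℕ} {g : Submodule K (Mt K m)} {a : K}
    (h : ∀ X ∈ g, bk (up m 0 (fun i => a + i)) X ∈ g) (k : ℤ) :
    ∀ X ∈ g, (Matrix.of fun i j => (if ((i : ℕ) : ℤ) - ((j : ℕ) : ℤ) = k then 1 else 0) * X i j :
      Mt K m) ∈ g := by
  intro X hX
  let p : Polynomial K := ∏ t ∈ (Finset.Icc (-(m : ℤ)) m).erase k,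
    (Polynomial.C (((k : K) - (t : K))⁻¹) * (Polynomial.X - Polynomial.C (t : K)))
  have h1 := poly_mem h p X hX
  convert h1 using 1
  ext i j
  have hi := i.2
  have hj := j.2
  simp only [Matrix.of_apply]
  congr 1
  simp only [p, Polynomial.eval_prod, Polynomial.eval_mul, Polynomial.eval_C, Polynomial.eval_sub,
    Polynomial.eval_X]
  split_ifs with hk
  · symm
    apply Finset.prod_eq_one
    intro t ht
    have ht' := Finset.ne_of_mem_erase ht
    have h2 : ((i : ℕ) : K) - ((j : ℕ) : K) = (k : K) := by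
      rw [← hk]; push_cast; ring
    rw [h2]
    apply inv_mul_cancel₀
    rw [sub_ne_zero]
    exact_mod_cast ht'.symm
  · symm
    apply Finset.prod_eq_zero (i := ((i : ℕ) : ℤ) - ((j : ℕ) : ℤ))
    · rw [Finset.mem_erase, Finset.mem_Icc]
      exact ⟨hk, by omega, by omega⟩
    · push_cast
      ring

theorem up_part [CharZero K] {m : ℕ} {g : Submodule K (Mt K m)} {a : K}
    (h : ∀ X ∈ g, bk (up m 0 (fun i => a + i)) X ∈ g) (k : ℕ) :
    ∀ X ∈ g, up m k (upf k X) ∈ g := by
  intro X hX
  have h1 := proj_mem h (k : ℤ) X hX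
  convert h1 using 1
  ext i j
  have hi := i.2
  have hj := j.2
  simp only [up, upf, Matrix.of_apply]
  by_cases hk : (i : ℕ) = j + k
  · rw [if_pos hk, dif_pos (by omega), if_pos (by omega), one_mul]
    congr 1
    exact Fin.ext hk.symm
  · rw [if_neg hk, if_neg (by omega), zero_mul]

theorem dn_part [CharZero K] {m : ℕ} {g : Submodule K (Mt K m)} {a : K}
    (h : ∀ X ∈ g, bk (up m 0 (fun i => a + i)) X ∈ g) (k : ℕ) :
    ∀ X ∈ g, dn m k (dnf k X) ∈ g := by
  intro X hX
  have h1 := proj_mem h (-(k : ℤ)) X hX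
  convert h1 using 1
  ext i j
  have hi := i.2
  have hj := j.2
  simp only [dn, dnf, Matrix.of_apply]
  by_cases hk : (j : ℕ) = i + k
  · rw [if_pos hk, dif_pos (by omega), if_pos (by omega), one_mul]
    congr 1
    exact Fin.ext hk.symm
  · rw [if_neg hk, if_neg (by omega), zero_mul]

/-- the radical of the trace form -/
def rad {m : ℕ} (g : Submodule K (Mt K m)) : Submodule K (Mt K m) where
  carrier := {X | X ∈ g ∧ ∀ Y ∈ g, (X * Y).trace = 0}
  add_mem' := by
    rintro X X' ⟨h1, h2⟩ ⟨h3, h4⟩
    refine ⟨g.add_mem h1 h3, fun Y hY => ?_⟩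
    rw [add_mul, Matrix.trace_add, h2 Y hY, h4 Y hY, add_zero]
  zero_mem' := ⟨g.zero_mem, fun Y _ => by rw [zero_mul, Matrix.trace_zero]⟩
  smul_mem' := by
    rintro c X ⟨h1, h2⟩
    refine ⟨g.smul_mem c h1, fun Y hY => ?_⟩
    rw [smul_mul_assoc, Matrix.trace_smul, h2 Y hY, smul_zero]

theorem rad_bk {m : ℕ} {g : Submodule K (Mt K m)} (hbr : ∀ X ∈ g, ∀ Y ∈ g, bk X Y ∈ g) :
    ∀ Y ∈ g, ∀ X ∈ rad g, bk Y X ∈ rad g := by
  rintro Y hY X ⟨hX, hX'⟩
  refine ⟨hbr Y hY X hX, fun Z hZ => ?_⟩
  have h1 := hX' _ (hbr Z hZ Y hY)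
  rw [bk] at h1 ⊢
  rw [mul_sub, Matrix.trace_sub] at h1
  rw [sub_mul, Matrix.trace_sub, ← h1]
  congr 1
  · rw [mul_assoc, Matrix.trace_mul_comm, mul_assoc]
  · rw [mul_assoc]

/-- the top vector -/
def vtop (K : Type) [Field K] (m : ℕ) : Fin (m + 1) → K := Pi.single (Fin.last m) 1

theorem mulVec_vtop {m : ℕ} (X : Mt K m) (i : Fin (m + 1)) :
    X.mulVec (vtop K m) i = X i (Fin.last m) := by
  rw [vtop, Matrix.mulVec_single_one]
  rfl

theorem up_vtop {m k : ℕ} (a : ℕ → K) :
    (up m k a).mulVec (vtop K m) = (if k = 0 then a m else 0) • vtop K m := by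
  ext i
  rw [mulVec_vtop, Pi.smul_apply, vtop, smul_eq_mul]
  simp only [up, Matrix.of_apply, Fin.val_last]
  have hi := i.2
  rcases Nat.eq_zero_or_pos k with hk | hk
  · subst hk
    by_cases h : i = Fin.last m
    · subst h
      simp
    · have h' : (i : ℕ) ≠ m := fun h' => h (Fin.ext h')
      rw [if_neg (by omega), Pi.single_eq_of_ne h, mul_zero]
  · rw [if_neg (by omega), if_neg (by omega), zero_mul]

/-- a subspace which contains the top vector and is stable under the elements of negative degree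
is everything -/
theorem stable_top [CharZero K] {m : ℕ} {g : Submodule K (Mt K m)} (S : Std m g)
    (U : Submodule K (Fin (m + 1) → K)) (hv : vtop K m ∈ U)
    (hU : ∀ (j : ℕ) (b : ℕ → K), 1 ≤ j → dn m j b ∈ g → ∀ u ∈ U, (dn m j b).mulVec u ∈ U) :
    U = ⊤ := by
  obtain ⟨a, ha⟩ := S.hx
  have hadx : ∀ X ∈ g, bk (up m 0 (fun i => a + i)) X ∈ g := fun X hX => S.br _ ha X hX
  let P : Submodule K (Fin (m + 1) → K) → Prop := fun V => vtop K m ∈ V ∧
    ∀ (j : ℕ) (b : ℕ → K), 1 ≤ j → dn m j b ∈ g → ∀ u ∈ V, (dn m j b).mulVec u ∈ V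
  let U0 : Submodule K (Fin (m + 1) → K) := sInf {V | P V}
  have hU0 : P U0 := by
    constructor
    · rw [Submodule.mem_sInf]
      exact fun V hV => hV.1
    · intro j b hj hb u hu
      rw [Submodule.mem_sInf] at hu ⊢
      exact fun V hV => hV.2 j b hj hb u (hu V hV)
  let U1 : Submodule K (Fin (m + 1) → K) :=
    { carrier := {u | u ∈ U0 ∧ ∀ X ∈ g, X.mulVec u ∈ U0}
      add_mem' := by
        rintro u u' ⟨h1, h2⟩ ⟨h3, h4⟩
        exact ⟨U0.add_mem h1 h3, fun X hX => by
          rw [Matrix.mulVec_add]; exact U0.add_mem (h2 X hX) (h4 X hX)⟩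
      zero_mem' := ⟨U0.zero_mem, fun X _ => by rw [Matrix.mulVec_zero]; exact U0.zero_mem⟩
      smul_mem' := by
        rintro c u ⟨h1, h2⟩
        exact ⟨U0.smul_mem c h1, fun X hX => by
          rw [Matrix.mulVec_smul]; exact U0.smul_mem c (h2 X hX)⟩ }
  have hU1 : P U1 := by
    constructor
    · refine ⟨hU0.1, fun X hX => ?_⟩
      rw [decomp X, Matrix.add_mulVec, Matrix.sum_mulVec, Matrix.sum_mulVec]
      refine U0.add_mem (U0.sum_mem fun k _ => ?_) (U0.sum_mem fun k _ => ?_)
      · rw [up_vtop]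
        exact U0.smul_mem _ hU0.1
      · exact hU0.2 (k + 1) _ (by omega) (dn_part hadx (k + 1) X hX) _ hU0.1
    · rintro j b hj hb u ⟨hu1, hu2⟩
      refine ⟨hU0.2 j b hj hb u hu1, fun X hX => ?_⟩
      have h1 : X.mulVec ((dn m j b).mulVec u) =
          (dn m j b).mulVec (X.mulVec u) + (bk X (dn m j b)).mulVec u := by
        rw [bk, Matrix.mulVec_mulVec, Matrix.mulVec_mulVec, Matrix.sub_mulVec]
        abel
      rw [h1]
      exact U0.add_mem (hU0.2 j b hj hb _ (hu2 X hX)) (hu2 _ (S.br X hX _ hb))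
  have h01 : U0 ≤ U1 := sInf_le hU1
  have hst : ∀ X ∈ g, ∀ v ∈ U0, X.mulVec v ∈ U0 := fun X hX v hv => (h01 hv).2 X hX
  have hle : U0 ≤ U := sInf_le ⟨hv, hU⟩
  rcases S.irr U0 hst with h | h
  · exfalso
    have h2 := hU0.1
    rw [h, Submodule.mem_bot] at h2
    have h3 := congrFun h2 (Fin.last m)
    simp [vtop] at h3
  · rw [eq_top_iff, ← h]
    exact hle

/-- the triple of the parts of degree `1`, `0`, `-1` -/
def W1 {m : ℕ} (g : Submodule K (Mt K m)) : Submodule K (ℕ → K) where
  carrier := {s | Supp m s ∧ up m 1 s ∈ g}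
  add_mem' := by
    rintro s s' ⟨h1, h2⟩ ⟨h3, h4⟩
    refine ⟨fun i hi => by rw [Pi.add_apply, h1 i hi, h3 i hi, add_zero], ?_⟩
    convert g.add_mem h2 h4 using 1
    ext i j
    simp only [up, Matrix.of_apply, Matrix.add_apply, Pi.add_apply]
    split_ifs <;> simp
  zero_mem' := by
    refine ⟨fun i _ => rfl, ?_⟩
    convert g.zero_mem using 1
    ext i j
    simp [up]
  smul_mem' := by
    rintro c s ⟨h1, h2⟩
    refine ⟨fun i hi => by rw [Pi.smul_apply, h1 i hi, smul_zero], ?_⟩
    convert g.smul_mem c h2 using 1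
    ext i j
    simp only [up, Matrix.of_apply, Matrix.smul_apply, Pi.smul_apply]
    split_ifs <;> simp

def Wm {m : ℕ} (g : Submodule K (Mt K m)) : Submodule K (ℕ → K) where
  carrier := {s | Supp m s ∧ dn m 1 s ∈ g}
  add_mem' := by
    rintro s s' ⟨h1, h2⟩ ⟨h3, h4⟩
    refine ⟨fun i hi => by rw [Pi.add_apply, h1 i hi, h3 i hi, add_zero], ?_⟩
    convert g.add_mem h2 h4 using 1
    ext i j
    simp only [dn, Matrix.of_apply, Matrix.add_apply, Pi.add_apply]
    split_ifs <;> simp
  zero_mem' := by
    refine ⟨fun i _ => rfl, ?_⟩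
    convert g.zero_mem using 1
    ext i j
    simp [dn]
  smul_mem' := by
    rintro c s ⟨h1, h2⟩
    refine ⟨fun i hi => by rw [Pi.smul_apply, h1 i hi, smul_zero], ?_⟩
    convert g.smul_mem c h2 using 1
    ext i j
    simp only [dn, Matrix.of_apply, Matrix.smul_apply, Pi.smul_apply]
    split_ifs <;> simp

def W0 {m : ℕ} (g : Submodule K (Mt K m)) : Submodule K (ℕ → K) where
  carrier := {z | Supp m z ∧ ∃ D : ℕ → K, up m 0 D ∈ g ∧ ∀ i, i < m → z i = D i - D (i + 1)}
  add_mem' := by
    rintro s s' ⟨h1, D, h2, h5⟩ ⟨h3, D', h4, h6⟩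
    refine ⟨fun i hi => by rw [Pi.add_apply, h1 i hi, h3 i hi, add_zero], D + D', ?_, ?_⟩
    · convert g.add_mem h2 h4 using 1
      ext i j
      simp only [up, Matrix.of_apply, Matrix.add_apply, Pi.add_apply]
      split_ifs <;> simp
    · intro i hi
      rw [Pi.add_apply, Pi.add_apply, Pi.add_apply, h5 i hi, h6 i hi]
      ring
  zero_mem' := by
    refine ⟨fun i _ => rfl, 0, ?_, fun i _ => by simp⟩
    convert g.zero_mem using 1
    ext i j
    simp [up]
  smul_mem' := by
    rintro c s ⟨h1, D, h2, h5⟩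
    refine ⟨fun i hi => by rw [Pi.smul_apply, h1 i hi, smul_zero], c • D, ?_, ?_⟩
    · convert g.smul_mem c h2 using 1
      ext i j
      simp only [up, Matrix.of_apply, Matrix.smul_apply, Pi.smul_apply]
      split_ifs <;> simp
    · intro i hi
      rw [Pi.smul_apply, Pi.smul_apply, Pi.smul_apply, h5 i hi]
      simp only [smul_eq_mul]
      ring

theorem up_congr {m k : ℕ} {a b : ℕ → K} (h : ∀ i, i + k < m + 1 → a i = b i) :
    up m k a = up m k b := by
  ext i j
  have hi := i.2
  simp only [up, Matrix.of_apply]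
  split_ifs with h1
  · exact h j (by omega)
  · rfl

theorem dn_congr {m k : ℕ} {a b : ℕ → K} (h : ∀ i, i + k < m + 1 → a i = b i) :
    dn m k a = dn m k b := by
  ext i j
  have hj := j.2
  simp only [dn, Matrix.of_apply]
  split_ifs with h1
  · exact h i (by omega)
  · rfl

theorem tri_of_std [CharZero K] {m : ℕ} {g : Submodule K (Mt K m)} (S : Std m g) :
    Tri m (W1 g) (W0 g) (Wm g) where
  s1 := fun u hu => hu.1
  s0 := fun u hu => hu.1
  sm := fun u hu => hu.1
  one1 := by
    refine ⟨fun i hi => by simp [oneF, not_lt.mpr hi], ?_⟩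
    convert S.he using 1
    apply up_congr
    intro i hi
    simp [oneF, show i < m by omega]
  one0 := by
    obtain ⟨a, ha⟩ := S.hx
    refine ⟨fun i hi => by simp [oneF, not_lt.mpr hi], fun i => -(a + i), ?_, ?_⟩
    · convert g.neg_mem ha using 1
      ext i j
      simp only [up, Matrix.of_apply, Matrix.neg_apply]
      split_ifs <;> simp
    · intro i hi
      simp only [oneF, hi, if_true]
      push_cast
      ring
  mul1 := by
    rintro z ⟨hz, D, hD, hzD⟩ u ⟨hu, hu'⟩
    refine ⟨fun i hi => by rw [Pi.mul_apply, hz i hi, zero_mul], ?_⟩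
    have h1 := g.neg_mem (S.br _ hD _ hu')
    rw [bk_up0_up1] at h1
    convert h1 using 1
    ext i j
    have hi := i.2
    simp only [up, Matrix.of_apply, Matrix.neg_apply, Pi.mul_apply]
    split_ifs with h2
    · rw [hzD j (by omega)]; ring
    · simp
  mulm := by
    rintro z ⟨hz, D, hD, hzD⟩ u ⟨hu, hu'⟩
    refine ⟨fun i hi => by rw [Pi.mul_apply, hz i hi, zero_mul], ?_⟩
    have h1 := S.br _ hD _ hu'
    rw [bk_up0_dn1] at h1
    convert h1 using 1
    apply dn_congr
    intro i hi
    rw [Pi.mul_apply, hzD i (by omega)]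
  brk := by
    rintro s ⟨hs, hs'⟩ y ⟨hy, hy'⟩
    refine ⟨fun i hi => by simp [lap, not_lt.mpr hi],
      fun i => (if i = 0 then 0 else s (i - 1) * y (i - 1)) - s i * y i, ?_, ?_⟩
    · have h1 := S.br _ hs' _ hy'
      rw [bk_up_dn hs] at h1
      exact h1
    · intro i hi
      simp only [lap, if_pos hi, Pi.mul_apply]
      rw [if_neg (Nat.succ_ne_zero i), Nat.add_sub_cancel]
      split_ifs <;> ring

/-- the radical is zero in negative degrees -/
theorem rad_dn [CharZero K] {m : ℕ} {g : Submodule K (Mt K m)} (S : Std m g) :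
    ∀ k : ℕ, ∀ b : ℕ → K, dn m (k + 1) b ∈ rad g → dn m (k + 1) b = 0 := by
  intro k
  induction k with
  | zero =>
    intro b hb
    have T := tri_of_std S
    let R : Submodule K (ℕ → K) :=
      { carrier := {s | Supp m s ∧ dn m 1 s ∈ rad g}
        add_mem' := by
          rintro s s' ⟨h1, h2⟩ ⟨h3, h4⟩
          refine ⟨fun i hi => by rw [Pi.add_apply, h1 i hi, h3 i hi, add_zero], ?_⟩
          convert (rad g).add_mem h2 h4 using 1
          ext i j
          simp only [dn, Matrix.of_apply, Matrix.add_apply, Pi.add_apply]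
          split_ifs <;> simp
        zero_mem' := by
          refine ⟨fun i _ => rfl, ?_⟩
          convert (rad g).zero_mem using 1
          ext i j
          simp [dn]
        smul_mem' := by
          rintro c s ⟨h1, h2⟩
          refine ⟨fun i hi => by rw [Pi.smul_apply, h1 i hi, smul_zero], ?_⟩
          convert (rad g).smul_mem c h2 using 1
          ext i j
          simp only [dn, Matrix.of_apply, Matrix.smul_apply, Pi.smul_apply]
          split_ifs <;> simp }
    have hR : ∀ y ∈ R, y = 0 := by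
      apply radical_zero T
      · rintro y ⟨h1, h2⟩
        exact ⟨h1, h2.1⟩
      · rintro z ⟨hz, D, hD, hzD⟩ u ⟨hu, hu'⟩
        refine ⟨fun i hi => by rw [Pi.mul_apply, hz i hi, zero_mul], ?_⟩
        have h1 := rad_bk S.br _ hD _ hu'
        rw [bk_up0_dn1] at h1
        convert h1 using 1
        apply dn_congr
        intro i hi
        rw [Pi.mul_apply, hzD i (by omega)]
      · rintro s ⟨hs, hs'⟩ y ⟨hy, hy'⟩
        have h1 := hy'.2 _ hs'
        rw [Matrix.trace_mul_comm, trace_up_mul, Finset.sum_range_succ, hs m le_rfl, zero_mul,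
          add_zero] at h1
        rw [← h1]
        apply Finset.sum_congr rfl
        intro i hi
        rw [Finset.mem_range] at hi
        congr 1
        simp only [dnf, dn, Matrix.of_apply]
        rw [dif_pos (by omega)]
        simp
    let b' : ℕ → K := fun i => if i < m then b i else 0
    have hb' : dn m 1 b' = dn m 1 b := by
      apply dn_congr
      intro i hi
      simp [b', show i < m by omega]
    have h2 := hR b' ⟨fun i hi => by simp [b', not_lt.mpr hi], by
      rw [hb']; exact hb⟩
    rw [zero_add, ← hb', h2]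
    ext i j
    simp [dn]
  | succ k ih =>
    intro b hb
    have h1 := rad_bk S.br _ S.he _ hb
    rw [bk_e_dn] at h1
    have h2 := ih _ h1
    have h3 : ∀ i : ℕ, i + (k + 1) < m + 1 →
        (if i = 0 then 0 else b (i - 1)) - (if i + (k + 1) + 1 < m + 1 then b i else 0) = 0 := by
      intro i hi
      have h4 := congrFun (congrFun h2 ⟨i, by omega⟩) ⟨i + (k + 1), hi⟩
      simp only [dn, Matrix.of_apply, if_true, Matrix.zero_apply] at h4
      exact h4
    have h5 : ∀ i : ℕ, i + (k + 1 + 1) < m + 1 → b i = 0 := by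
      intro i
      induction i with
      | zero =>
        intro hi
        have h6 := h3 0 (by omega)
        rw [if_pos rfl, if_pos (by omega), zero_sub, neg_eq_zero] at h6
        exact h6
      | succ i ih' =>
        intro hi
        have h6 := h3 (i + 1) (by omega)
        rw [if_neg (Nat.succ_ne_zero i), Nat.add_sub_cancel, if_pos (by omega),
          ih' (by omega), zero_sub, neg_eq_zero] at h6
        exact h6
    ext i j
    have hj := j.2
    simp only [dn, Matrix.of_apply, Matrix.zero_apply]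
    split_ifs with h7
    · exact h5 i (by omega)
    · rfl

/-- the radical is zero in degrees `≥ 0` -/
theorem rad_up [CharZero K] {m : ℕ} {g : Submodule K (Mt K m)} (S : Std m g) :
    ∀ k : ℕ, ∀ a : ℕ → K, up m k a ∈ rad g → up m k a = 0 := by
  obtain ⟨x, hx⟩ := S.hx
  have hadx : ∀ X ∈ rad g, bk (up m 0 (fun i => x + i)) X ∈ rad g :=
    fun X hX => rad_bk S.br _ hx X hX
  intro k
  induction k using Nat.strong_induction_on with
  | _ k ih =>
    intro a ha
    -- commutes with the elements of negative degree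
    have hcomm : ∀ (j : ℕ) (b : ℕ → K), 1 ≤ j → dn m j b ∈ g → bk (dn m j b) (up m k a) = 0 := by
      intro j b hj hb
      set M := bk (dn m j b) (up m k a) with hM
      have hMr : M ∈ rad g := rad_bk S.br _ hb _ ha
      rw [decomp M]
      rw [Finset.sum_eq_zero, Finset.sum_eq_zero, add_zero]
      · intro k' _
        exact rad_dn S k' _ (dn_part hadx (k' + 1) M hMr)
      · intro k' _
        by_cases hk' : k' < k
        · exact ih k' hk' _ (up_part hadx k' M hMr)
        · have h1 : ∀ i : ℕ, upf k' M i = 0 := by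
            intro i
            simp only [upf]
            split_ifs with h2
            · rw [hM, bk, Matrix.sub_apply, dn_mul, mul_dn]
              simp only [up, Matrix.of_apply]
              split_ifs <;> first | omega | simp
            · rfl
          ext i i'
          simp only [up, Matrix.of_apply, h1, Matrix.zero_apply]
          split_ifs <;> rfl
    set c : K := if k = 0 then a m else 0 with hc
    -- the kernel
    let U : Submodule K (Fin (m + 1) → K) := LinearMap.ker (Matrix.mulVecLin (up m k a - c • 1))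
    have hUmem : ∀ u, u ∈ U ↔ (up m k a).mulVec u = c • u := by
      intro u
      rw [LinearMap.mem_ker, Matrix.mulVecLin_apply, Matrix.sub_mulVec, Matrix.smul_mulVec,
        Matrix.one_mulVec, sub_eq_zero]
    have hUtop : U = ⊤ := by
      apply stable_top S
      · rw [hUmem, up_vtop]
      · intro j b hj hb u hu
        rw [hUmem] at hu ⊢
        have h1 := hcomm j b hj hb
        rw [bk, sub_eq_zero] at h1
        rw [Matrix.mulVec_mulVec, ← h1, ← Matrix.mulVec_mulVec, hu, Matrix.mulVec_smul]
    have hscal : up m k a = c • 1 := by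
      have h1 : Matrix.mulVecLin (up m k a - c • 1) = 0 := LinearMap.ker_eq_top.mp hUtop
      have h2 : up m k a - c • (1 : Mt K m) = 0 := by
        apply Matrix.toLin'.injective
        rw [Matrix.toLin'_apply', h1, map_zero]
      exact sub_eq_zero.mp h2
    have htr := ha.2 _ ha.1
    rw [hscal, smul_mul_smul_comm, one_mul, Matrix.trace_smul, Matrix.trace_one, smul_eq_mul] at htr
    have hc0 : c = 0 := by
      have h1 : ((Fintype.card (Fin (m + 1)) : ℕ) : K) ≠ 0 := by
        rw [Fintype.card_fin]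
        exact_mod_cast Nat.succ_ne_zero m
      rcases mul_eq_zero.mp htr with h | h
      · exact mul_self_eq_zero.mp h
      · exact absurd h h1
    rw [hscal, hc0, zero_smul]

/-- the trace form is nondegenerate -/
theorem rad_zero [CharZero K] {m : ℕ} {g : Submodule K (Mt K m)} (S : Std m g) :
    ∀ X ∈ rad g, X = 0 := by
  obtain ⟨x, hx⟩ := S.hx
  have hadx : ∀ X ∈ rad g, bk (up m 0 (fun i => x + i)) X ∈ rad g :=
    fun X hX => rad_bk S.br _ hx X hX
  intro X hX
  rw [decomp X, Finset.sum_eq_zero, Finset.sum_eq_zero, add_zero]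
  · intro k _
    exact rad_dn S k _ (dn_part hadx (k + 1) X hX)
  · intro k _
    exact rad_up S k _ (up_part hadx k X hX)

end MT
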