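import Pool.Agent.Helper43.MT.LieRad
import Pool.Agent.Helper92.MT.GEN

/-!
# The trichotomy in the standard basis
-/

set_option autoImplicit false

namespace MT

variable {K : Type} [Field K]

/-- the standard form -/
def psiS (m : ℕ) (κ : K) : Mt K m :=
  Matrix.of fun i j => if (i : ℕ) + j = m then (-1) ^ (i : ℕ) * κ else 0

theorem psiS_mul {m : ℕ} (κ : K) (A : Mt K m) (i j : Fin (m + 1)) :
    (psiS m κ * A) i j = (-1) ^ (i : ℕ) * κ * A (Fin.rev i) j := by
  rw [Matrix.mul_apply, Finset.sum_eq_single (Fin.rev i)]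
  · simp only [psiS, Matrix.of_apply]
    rw [if_pos]
    have := i.2
    simp only [Fin.val_rev]
    omega
  · intro b _ hb
    simp only [psiS, Matrix.of_apply]
    rw [if_neg, zero_mul]
    intro hc
    apply hb
    apply Fin.ext
    simp only [Fin.val_rev]
    omega
  · intro hb
    exact absurd (Finset.mem_univ _) hb

theorem mul_psiS {m : ℕ} (κ : K) (A : Mt K m) (i j : Fin (m + 1)) :
    (A * psiS m κ) i j = A i (Fin.rev j) * ((-1) ^ (Fin.rev j : ℕ) * κ) := by
  rw [Matrix.mul_apply, Finset.sum_eq_single (Fin.rev j)]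
  · simp only [psiS, Matrix.of_apply]
    rw [if_pos]
    have := j.2
    simp only [Fin.val_rev]
    omega
  · intro b _ hb
    simp only [psiS, Matrix.of_apply]
    rw [if_neg, mul_zero]
    intro hc
    apply hb
    apply Fin.ext
    simp only [Fin.val_rev]
    omega
  · intro hb
    exact absurd (Finset.mem_univ _) hb

theorem nd1 [CharZero K] {m : ℕ} {g : Submodule K (Mt K m)} (S : Std m g) :
    ∀ s ∈ W1 g, (∀ y ∈ Wm g, ∑ i ∈ Finset.range m, s i * y i = 0) → s = 0 := by
  obtain ⟨x, hx⟩ := S.hx
  have hadx : ∀ X ∈ g, bk (up m 0 (fun i => x + i)) X ∈ g := fun X hX => S.br _ hx X hX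
  rintro s ⟨hs, hs'⟩ h
  have h1 : up m 1 s ∈ rad g := by
    refine ⟨hs', fun Y hY => ?_⟩
    rw [trace_up_mul, Finset.sum_range_succ, hs m le_rfl, zero_mul, add_zero]
    apply h
    refine ⟨fun i hi => ?_, dn_part hadx 1 Y hY⟩
    simp only [dnf]
    rw [dif_neg (by omega)]
  have h2 := rad_zero S _ h1
  ext i
  rcases Nat.lt_or_ge i m with hi | hi
  · have h3 := congrFun (congrFun h2 ⟨i + 1, by omega⟩) ⟨i, by omega⟩
    simpa [up] using h3
  · exact hs i hi

theorem ndm [CharZero K] {m : ℕ} {g : Submodule K (Mt K m)} (S : Std m g) :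
    ∀ y ∈ Wm g, (∀ s ∈ W1 g, ∑ i ∈ Finset.range m, s i * y i = 0) → y = 0 := by
  obtain ⟨x, hx⟩ := S.hx
  have hadx : ∀ X ∈ g, bk (up m 0 (fun i => x + i)) X ∈ g := fun X hX => S.br _ hx X hX
  rintro s ⟨hs, hs'⟩ h
  have h1 : dn m 1 s ∈ rad g := by
    refine ⟨hs', fun Y hY => ?_⟩
    rw [trace_dn_mul, Finset.sum_range_succ, hs m le_rfl, zero_mul, add_zero]
    rw [← h (upf 1 Y) ⟨fun i hi => by simp only [upf]; rw [dif_neg (by omega)],
      up_part hadx 1 Y hY⟩]
    exact Finset.sum_congr rfl fun i _ => mul_comm _ _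
  have h2 := rad_zero S _ h1
  ext i
  rcases Nat.lt_or_ge i m with hi | hi
  · have h3 := congrFun (congrFun h2 ⟨i, by omega⟩) ⟨i + 1, by omega⟩
    simpa [dn] using h3
  · exact hs i hi

/-- palindromic functions -/
theorem w1_pal {m : ℕ} {g : Submodule K (Mt K m)} {κ : K} (hκ : κ ≠ 0)
    (hψ : ∀ X ∈ g, ∃ c : K, X.transpose * psiS m κ + psiS m κ * X = c • psiS m κ) :
    ∀ s ∈ W1 g, ∀ i, i < m → s i = s (m - 1 - i) := by
  rintro s ⟨hs, hs'⟩ i hi
  obtain ⟨c, hc⟩ := hψ _ hs'
  have h1 := congrFun (congrFun hc ⟨i, by omega⟩) ⟨m - 1 - i, by omega⟩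
  rw [Matrix.add_apply, mul_psiS, psiS_mul, Matrix.smul_apply] at h1
  simp only [psiS, up, Matrix.of_apply, Matrix.transpose_apply, Fin.val_rev] at h1
  rw [if_pos (by omega), if_pos (by omega), if_neg (by omega), smul_zero] at h1
  have h2 : m + 1 - (m - 1 - i + 1) = i + 1 := by omega
  rw [h2, pow_succ] at h1
  have h3 : ((-1 : K) ^ i * κ) ≠ 0 := mul_ne_zero (pow_ne_zero _ (by norm_num)) hκ
  apply mul_left_cancel₀ h3
  linear_combination -h1

theorem full_of_pal [CharZero K] {m : ℕ} {g : Submodule K (Mt K m)} (S : Std m g) {κ : K}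
    (hκ : κ ≠ 0)
    (hall : ∀ s : ℕ → K, Supp m s → (∀ i, i < m → s i = s (m - 1 - i)) → s ∈ W1 g) :
    ∀ A : Mt K m, A.transpose * psiS m κ + psiS m κ * A = 0 → A ∈ g := by
  have T := tri_of_std S
  obtain ⟨h10, hw⟩ := w_mem T (nd1 S) (ndm S)
  have hwne : ∀ i, i < m → wF K m i ≠ 0 := by
    intro i hi
    have h1 : wF K m i = (((i + 1) * (m - i) : ℕ) : K) := by
      simp only [wF, hi, if_true]
      push_cast [Nat.cast_sub hi.le]
      ring
    rw [h1]
    have h2 : 0 < (i + 1) * (m - i) := Nat.mul_pos (by omega) (by omega)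
    exact_mod_cast h2.ne'
  have hwpal : ∀ i, i < m → wF K m i = wF K m (m - 1 - i) := by
    intro i hi
    simp only [wF, hi, if_true, show m - 1 - i < m by omega]
    have h1 : ((m - 1 - i : ℕ) : K) = (m : K) - 1 - i := by
      rw [Nat.cast_sub (by omega), Nat.cast_sub (by omega)]
      push_cast
      ring
    rw [h1]
    ring
  intro A hA
  apply Gen.gen g (fun X hX Y hY => S.br X hX Y hY)
  · intro s hs
    have h1 := hall (fun i => if i < m then s i else 0) (fun i hi => by simp [not_lt.mpr hi])
      (fun i hi => by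
        simp only [hi, if_true, show m - 1 - i < m by omega]
        exact (hs i hi).symm)
    convert h1.2 using 1
    ext i j
    have hi := i.2
    simp only [Gen.up, up, Matrix.of_apply]
    split_ifs with h2 h3
    · rfl
    · omega
    · rfl
  · intro s hs
    let t : ℕ → K := fun i => if i < m then s i / wF K m i else 0
    have ht : t ∈ W1 g := by
      apply hall
      · intro i hi
        simp [t, not_lt.mpr hi]
      · intro i hi
        simp only [t, hi, if_true, show m - 1 - i < m by omega]
        rw [hs i hi, ← hwpal i hi]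
    have h1 := T.mulm t (h10 ht) _ hw
    convert h1.2 using 1
    ext i j
    have hj := j.2
    simp only [Gen.dn, dn, Matrix.of_apply, Pi.mul_apply]
    split_ifs with h2
    · have h3 : (i : ℕ) < m := by omega
      simp only [t, h3, if_true]
      rw [div_mul_cancel₀ _ (hwne i h3)]
    · rfl
  · intro i j
    have h1 := congrFun (congrFun hA j) (Fin.rev i)
    rw [Matrix.add_apply, mul_psiS, psiS_mul, Matrix.transpose_apply, Fin.rev_rev,
      Matrix.zero_apply] at h1
    have h2 : ((-1 : K) ^ (i : ℕ)) * (-1) ^ (i : ℕ) = 1 := by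
      rw [← mul_pow]; simp
    apply mul_left_cancel₀ hκ
    rw [pow_add]
    linear_combination (-1) ^ (i : ℕ) * h1 - κ * A i j * h2

theorem bk_e_dn_inj {m k : ℕ} (b : ℕ → K) (h : bk (eM K m) (dn m (k + 1) b) = 0) :
    dn m (k + 1) b = 0 := by
  rw [bk_e_dn] at h
  have h3 : ∀ i : ℕ, i + k < m + 1 →
      (if i = 0 then 0 else b (i - 1)) - (if i + k + 1 < m + 1 then b i else 0) = 0 := by
    intro i hi
    have h4 := congrFun (congrFun h ⟨i, by omega⟩) ⟨i + k, hi⟩
    simp only [dn, Matrix.of_apply, if_true, Matrix.zero_apply] at h4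
    exact h4
  have h5 : ∀ i : ℕ, i + (k + 1) < m + 1 → b i = 0 := by
    intro i
    induction i with
    | zero =>
      intro hi
      have h6 := h3 0 (by omega)
      rw [if_pos rfl, if_pos (by omega), zero_sub, neg_eq_zero] at h6
      exact h6
    | succ i ih' =>
      intro hi
      have h6 := h3 (i + 1) (by omega)
      rw [if_neg (Nat.succ_ne_zero i), Nat.add_sub_cancel, if_pos (by omega),
        ih' (by omega), zero_sub, neg_eq_zero] at h6
      exact h6
  ext i j
  have hj := j.2
  simp only [dn, Matrix.of_apply, Matrix.zero_apply]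
  split_ifs with h7
  · exact h5 i (by omega)
  · rfl

/-- the standard `sl_2` with the scalars -/
def sl2S (K : Type) [Field K] (m : ℕ) : Submodule K (Mt K m) :=
  Submodule.span K {1, eM K m, up m 0 (fun i => (m : K) - 2 * i), dn m 1 (wF K m)}

theorem sl2_of_const [CharZero K] {m : ℕ} {g : Submodule K (Mt K m)} (S : Std m g)
    (hconst : ∀ s ∈ W1 g, ∀ i, i < m → s i = s 0) (hm : 0 < m) :
    ∀ A ∈ g, A ∈ sl2S K m := by
  have T := tri_of_std S
  obtain ⟨x, hx⟩ := S.hx
  have hadx : ∀ X ∈ g, bk (up m 0 (fun i => x + i)) X ∈ g := fun X hX => S.br _ hx X hX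
  have m1 : (1 : Mt K m) ∈ sl2S K m := Submodule.subset_span (by simp)
  have m2 : eM K m ∈ sl2S K m := Submodule.subset_span (by simp)
  have m3 : up m 0 (fun i => (m : K) - 2 * i) ∈ sl2S K m := Submodule.subset_span (by simp)
  have m4 : dn m 1 (wF K m) ∈ sl2S K m := Submodule.subset_span (by simp)
  have h01 := W0_le_W1 T
  -- degree -1
  have hdn1 : ∀ y ∈ Wm g, ∃ a : K, y = a • wF K m := by
    intro y hy
    have h1 := h01 (lap_mem T hy)
    refine ⟨-(lap m y 0) / 2, ?_⟩
    have h2 : ∀ i, i < m → lap m (y - (-(lap m y 0) / 2) • wF K m) i = 0 := by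
      intro i hi
      rw [lap_sub_smul, lap_wF, Pi.sub_apply, Pi.smul_apply, Pi.smul_apply, hconst _ h1 i hi]
      simp only [oneF, hi, if_true, smul_eq_mul]
      ring
    have h3 := lap_inj (m := m) (u := y - (-(lap m y 0) / 2) • wF K m) (fun i hi => by
      rw [Pi.sub_apply, Pi.smul_apply, T.sm y hy i hi]
      simp [wF, not_lt.mpr hi]) h2
    ext i
    have h4 := h3 i
    rw [Pi.sub_apply, sub_eq_zero] at h4
    exact h4
  -- degree -k, k ≥ 2
  have hdnk : ∀ k : ℕ, ∀ b : ℕ → K, dn m (k + 2) b ∈ g → dn m (k + 2) b = 0 := by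
    intro k
    induction k with
    | zero =>
      intro b hb
      apply bk_e_dn_inj
      have h1 := S.br _ S.he _ hb
      have h0 := h1
      rw [show (0 + 2 : ℕ) = 1 + 1 from rfl, bk_e_dn] at h1
      set b' : ℕ → K := fun i => (if i = 0 then 0 else b (i - 1)) -
        (if i + 1 + 1 < m + 1 then b i else 0) with hb'
      have h2 : (fun i => if i < m then b' i else 0) ∈ Wm g := by
        refine ⟨fun i hi => by simp [not_lt.mpr hi], ?_⟩
        convert h1 using 1
        apply dn_congr
        intro i hi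
        simp [show i < m by omega]
      obtain ⟨a, ha⟩ := hdn1 _ h2
      have h3 : dn m 1 b' = a • dn m 1 (wF K m) := by
        ext i j
        have hj := j.2
        simp only [dn, Matrix.of_apply, Matrix.smul_apply, smul_eq_mul]
        split_ifs with h4
        · have h5 := congrFun ha i
          simp only [show (i : ℕ) < m by omega, if_true, Pi.smul_apply, smul_eq_mul] at h5
          exact h5
        · rw [mul_zero]
      have h4 : (bk (eM K m) (dn m (0 + 2) b) * eM K m).trace = 0 := by
        rw [bk, sub_mul, Matrix.trace_sub, sub_eq_zero, mul_assoc, Matrix.trace_mul_comm]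
      rw [show (0 + 2 : ℕ) = 1 + 1 from rfl, bk_e_dn, ← hb', h3, smul_mul_assoc,
        Matrix.trace_smul, smul_eq_mul, trace_dn_mul] at h4
      have h5 : ∑ j ∈ Finset.range (m + 1), wF K m j * upf 1 (eM K m) j =
          ((∑ j ∈ Finset.range m, (j + 1) * (m - j) : ℕ) : K) := by
        rw [Finset.sum_range_succ, Nat.cast_sum]
        have h6 : wF K m m = 0 := by simp [wF]
        rw [h6, zero_mul, add_zero]
        apply Finset.sum_congr rfl
        intro j hj
        rw [Finset.mem_range] at hj
        simp only [wF, hj, if_true, upf, eM, up, Matrix.of_apply]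
        rw [dif_pos (by omega), mul_one]
        push_cast [Nat.cast_sub hj.le]
        ring
      rw [h5] at h4
      have h6 : 0 < ∑ j ∈ Finset.range m, (j + 1) * (m - j) := by
        apply Finset.sum_pos
        · intro j hj
          rw [Finset.mem_range] at hj
          exact Nat.mul_pos (by omega) (by omega)
        · exact ⟨0, Finset.mem_range.mpr hm⟩
      have h7 : ((∑ j ∈ Finset.range m, (j + 1) * (m - j) : ℕ) : K) ≠ 0 := by
        exact_mod_cast h6.ne'
      have h8 : a = 0 := by
        rcases mul_eq_zero.mp h4 with h | h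
        · exact h
        · exact absurd h h7
      rw [show (0 + 2 : ℕ) = 1 + 1 from rfl, bk_e_dn, ← hb', h3, h8, zero_smul]
    | succ k ih =>
      intro b hb
      apply bk_e_dn_inj
      have h1 := S.br _ S.he _ hb
      rw [show k + 1 + 2 = (k + 2) + 1 from rfl, bk_e_dn] at h1 ⊢
      exact ih _ h1
  -- degree k ≥ 2
  have hupk : ∀ k : ℕ, ∀ a : ℕ → K, up m (k + 2) a ∈ g → up m (k + 2) a = 0 := by
    intro k a ha
    apply rad_zero S
    refine ⟨ha, fun Y hY => ?_⟩
    rw [trace_up_mul]
    apply Finset.sum_eq_zero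
    intro j _
    have h1 := hdnk k _ (dn_part hadx (k + 2) Y hY)
    have h2 : dnf (k + 2) Y j = 0 := by
      by_cases h3 : j + (k + 2) < m + 1
      · have h4 := congrFun (congrFun h1 ⟨j, by omega⟩) ⟨j + (k + 2), h3⟩
        simpa [dn] using h4
      · simp only [dnf]
        rw [dif_neg h3]
    rw [h2, mul_zero]
  intro A hA
  rw [decomp A]
  refine Submodule.add_mem _ (Submodule.sum_mem _ fun k _ => ?_) (Submodule.sum_mem _ fun k _ => ?_)
  · rcases k with _ | _ | k
    · -- degree 0
      set D := upf 0 A with hD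
      have hDg : up m 0 D ∈ g := up_part hadx 0 A hA
      have h1 : (fun i => if i < m then D i - D (i + 1) else 0) ∈ W0 g :=
        ⟨fun i hi => by simp [not_lt.mpr hi], D, hDg, fun i hi => by simp [hi]⟩
      have h2 := hconst _ (h01 h1)
      simp only [hm, if_true, zero_add] at h2
      have h3 : ∀ i, i < m → D i - D (i + 1) = D 0 - D 1 := by
        intro i hi
        have h4 := h2 i hi
        simp only [hi, if_true] at h4
        exact h4
      have h4 : ∀ i, i < m + 1 → D i = D 0 - i * (D 0 - D 1) := by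
        intro i
        induction i with
        | zero => intro _; simp
        | succ i ih =>
          intro hi
          have h5 := h3 i (by omega)
          have h6 := ih (by omega)
          push_cast
          linear_combination h6 - h5
      have h5 : up m 0 D = (D 0 - m * ((D 0 - D 1) / 2)) • (1 : Mt K m) +
          ((D 0 - D 1) / 2) • up m 0 (fun i => (m : K) - 2 * i) := by
        ext i j
        have hj := j.2
        simp only [up, Matrix.of_apply, Matrix.add_apply, Matrix.smul_apply, smul_eq_mul,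
          Nat.add_zero]
        by_cases hij : i = j
        · subst hij
          rw [if_pos rfl, if_pos rfl, Matrix.one_apply_eq, h4 i hj]
          ring
        · have h6 : (i : ℕ) ≠ j := fun h => hij (Fin.ext h)
          rw [if_neg h6, if_neg h6, Matrix.one_apply_ne hij]
          ring
      rw [h5]
      exact Submodule.add_mem _ (Submodule.smul_mem _ _ m1) (Submodule.smul_mem _ _ m3)
    · -- degree 1
      have h1 : upf 1 A ∈ W1 g := ⟨fun i hi => by simp only [upf]; rw [dif_neg (by omega)],
        up_part hadx 1 A hA⟩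
      have h2 : up m (0 + 1) (upf (0 + 1) A) = (upf 1 A 0) • eM K m := by
        ext i j
        have hi := i.2
        simp only [up, eM, Matrix.of_apply, Matrix.smul_apply, smul_eq_mul, zero_add]
        split_ifs with h3
        · rw [hconst _ h1 j (by omega), mul_one]
        · rw [mul_zero]
      rw [h2]
      exact Submodule.smul_mem _ _ m2
    · rw [hupk k _ (up_part hadx (k + 2) A hA)]
      exact Submodule.zero_mem _
  · rcases k with _ | k
    · obtain ⟨a, ha⟩ := hdn1 (dnf 1 A) ⟨fun i hi => by simp only [dnf]; rw [dif_neg (by omega)],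
        dn_part hadx 1 A hA⟩
      rw [zero_add, ha]
      have h2 : dn m 1 (a • wF K m) = a • dn m 1 (wF K m) := by
        ext i j
        simp only [dn, Matrix.of_apply, Matrix.smul_apply, Pi.smul_apply, smul_eq_mul]
        split_ifs <;> simp
      rw [h2]
      exact Submodule.smul_mem _ _ m4
    · rw [hdnk k _ (dn_part hadx (k + 2) A hA)]
      exact Submodule.zero_mem _

/-- the trichotomy in the standard basis -/
theorem std_main [CharZero K] {m : ℕ} {g : Submodule K (Mt K m)} (S : Std m g) {κ : K}
    (hκ : κ ≠ 0)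
    (hψ : ∀ X ∈ g, ∃ c : K, X.transpose * psiS m κ + psiS m κ * X = c • psiS m κ) :
    (∀ A : Mt K m, A.transpose * psiS m κ + psiS m κ * A = 0 → A ∈ g) ∨
      (3 ≤ m ∧ ∀ A ∈ g, A ∈ sl2S K m) ∨ m = 6 := by
  have T := tri_of_std S
  have hpal := w1_pal hκ hψ
  rcases w1_trichotomy T (nd1 S) (ndm S) hpal with h | h | h
  · by_cases hm : 3 ≤ m
    · right; left
      exact ⟨hm, sl2_of_const S h (by omega)⟩
    · left
      apply full_of_pal S hκ
      intro s hs hspal
      have h1 : s = s 0 • oneF K m := by
        ext i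
        rw [Pi.smul_apply, smul_eq_mul]
        rcases Nat.lt_or_ge i m with hi | hi
        · simp only [oneF, hi, if_true, mul_one]
          rcases Nat.eq_zero_or_pos i with h0 | h0
          · rw [h0]
          · have h2 : i = 1 := by omega
            have h3 : m = 2 := by omega
            subst h2
            subst h3
            exact hspal 1 (by omega)
        · rw [hs i hi]
          simp [oneF, not_lt.mpr hi]
      rw [h1]
      exact (W1 g).smul_mem _ T.one1
  · exact Or.inr (Or.inr h)
  · left
    exact full_of_pal S hκ h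

end MT
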