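import Pool.Agent.Helper43.MT.LieComb
import Pool.Agent.Helper43.MT.LiePart

/-!
# The trichotomy for the part of degree one
-/

set_option autoImplicit false

namespace MT

variable {K : Type} [Field K]

open Classical in
theorem blk_wF (m : ℕ) (W0 : Submodule K (ℕ → K)) (c j : ℕ) :
    blk m W0 c (wF K m) j = if j < m ∧ Rel W0 j c then ((wZ m j : ℤ) : K) else 0 := by
  by_cases h : j < m ∧ Rel W0 j c
  · rw [blk_of _ h.1 h.2, if_pos h]
    simp only [wF, h.1, if_true, wZ]
    push_cast
    ring
  · rw [blk_of_not _ h, if_neg h]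

theorem lap_blk_wF (m : ℕ) (W0 : Submodule K (ℕ → K)) (c i : ℕ) (hi : i < m) :
    lap m (blk m W0 c (wF K m)) i = ((nZ m (Rel W0) c i : ℤ) : K) := by
  classical
  simp only [lap, if_pos hi, blk_wF, nZ]
  rcases Nat.eq_zero_or_pos i with h0 | h0
  · subst h0
    simp only [if_true, zero_add, show ¬ (1 ≤ 0) by omega, false_and, if_false, hi, true_and]
    push_cast
    split_ifs <;> push_cast <;> ring
  · have h1 : i - 1 < m := by omega
    have h2 : 1 ≤ i := h0
    simp only [h0.ne', if_false, h1, h2, true_and, hi]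
    split_ifs <;> push_cast <;> ring

theorem w1_trichotomy [CharZero K] {m : ℕ} {W1 W0 Wm : Submodule K (ℕ → K)} (T : Tri m W1 W0 Wm)
    (hnd1 : ∀ s ∈ W1, (∀ y ∈ Wm, ∑ i ∈ Finset.range m, s i * y i = 0) → s = 0)
    (hndm : ∀ y ∈ Wm, (∀ s ∈ W1, ∑ i ∈ Finset.range m, s i * y i = 0) → y = 0)
    (pal : ∀ s ∈ W1, ∀ i, i < m → s i = s (m - 1 - i)) :
    (∀ s ∈ W1, ∀ i, i < m → s i = s 0) ∨ m = 6 ∨
      ∀ s : ℕ → K, Supp m s → (∀ i, i < m → s i = s (m - 1 - i)) → s ∈ W1 := by
  classical
  obtain ⟨h10, hw⟩ := w_mem T hnd1 hndm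
  have h01 := W0_le_W1 T
  have key := partition (m := m) (r := Rel W0) (fun i z _ => rfl) (fun i j h => Rel.symm' h)
    (fun i j k h h' => Rel.trans' h h') (fun i hi z hz => pal z (h01 hz) i hi) (by
      intro c hc i hi j hj hij
      have h1 := hij _ (lap_mem T (blk_mem T.one0 T.sm T.mulm c hw))
      rw [lap_blk_wF m W0 c i hi, lap_blk_wF m W0 c j hj] at h1
      exact_mod_cast h1)
  rcases key with h | h | h
  · left
    intro s hs i hi
    exact h i hi s (h10 hs)
  · exact Or.inr (Or.inl h)
  · right; right
    intro s hs hpal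
    let N : ℕ → ℕ := fun c => ((Finset.range m).filter fun i => Rel W0 i c).card
    have hN : ∀ c, c < m → (N c : K) ≠ 0 := by
      intro c hc
      have h1 : 0 < N c := Finset.card_pos.mpr ⟨c, by
        rw [Finset.mem_filter, Finset.mem_range]; exact ⟨hc, fun z _ => rfl⟩⟩
      exact_mod_cast h1.ne'
    have hs' : s = ∑ c ∈ Finset.range m, (s c * (N c : K)⁻¹) • blk m W0 c (oneF K m) := by
      ext i
      rw [Finset.sum_apply]
      by_cases hi : i < m
      · have h1 : ∀ c ∈ Finset.range m, ((s c * (N c : K)⁻¹) • blk m W0 c (oneF K m)) i =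
            if Rel W0 c i then s i * (N i : K)⁻¹ else 0 := by
          intro c hc
          rw [Finset.mem_range] at hc
          rw [Pi.smul_apply, smul_eq_mul]
          by_cases hic : Rel W0 i c
          · rw [blk_of _ hi hic, if_pos (Rel.symm' hic)]
            have h2 : s c = s i := by
              rcases h i hi c hc hic with h3 | h3
              · rw [h3]
              · rw [h3]; exact hpal c hc
            have h3 : N c = N i := by
              apply congrArg Finset.card
              ext j
              simp only [Finset.mem_filter, Finset.mem_range]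
              constructor
              · rintro ⟨a, b⟩; exact ⟨a, Rel.trans' b (Rel.symm' hic)⟩
              · rintro ⟨a, b⟩; exact ⟨a, Rel.trans' b hic⟩
            rw [h2, h3]
            simp [oneF, hi]
          · rw [blk_of_not _ (fun h => hic h.2), if_neg (fun h => hic (Rel.symm' h)), mul_zero]
        rw [Finset.sum_congr rfl h1, ← Finset.sum_filter, Finset.sum_const, nsmul_eq_mul]
        have h4 := hN i hi
        change s i = (N i : K) * (s i * (N i : K)⁻¹)
        field_simp
      · rw [hs i (by omega)]
        symm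
        apply Finset.sum_eq_zero
        intro c _
        rw [Pi.smul_apply, blk_of_not _ (fun h => hi h.1), smul_zero]
    rw [hs']
    exact W1.sum_mem fun c _ => W1.smul_mem _ (blk_mem T.one0 T.s1 T.mul1 c T.one1)

end MT
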